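import Pool.Agent.H86.FDA.Tools

namespace Pool.FDA

open Function Filter

theorem val_map {K K' : Type} [PAM K] [PAM K'] (ι : K →+* K') (e : ℕ → K) (t : Tm) :
    t.val (fun n => ι (e n)) = ι (t.val e) := by
  induction t with
  | var n => rfl
  | zero => simp [Tm.val]
  | one => simp [Tm.val]
  | add s t hs ht => simp [Tm.val, hs, ht]
  | mul s t hs ht => simp [Tm.val, hs, ht]

theorem val_update_of_notMem {K : Type} [PAM K] (e : ℕ → K) (n : ℕ) (a : K) (t : Tm)
    (h : n ∉ t.vars) : t.val (update e n a) = t.val e := by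
  induction t with
  | var m =>
    simp only [Tm.vars, Finset.mem_singleton] at h
    simp [Tm.val, update_of_ne (Ne.symm h)]
  | zero => rfl
  | one => rfl
  | add s t hs ht =>
    simp only [Tm.vars, Finset.mem_union, not_or] at h
    simp [Tm.val, hs h.1, ht h.2]
  | mul s t hs ht =>
    simp only [Tm.vars, Finset.mem_union, not_or] at h
    simp [Tm.val, hs h.1, ht h.2]

theorem t_ini : INIStmt := by
  intro K K' _ _ ι hι hI φ hφ
  induction hφ with
  | eq s t =>
    intro e
    simp only [Sat, val_map]
    exact hι.injective.eq_iff.symm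
  | lt s t =>
    intro e
    simp only [Sat, val_map]
    exact hι.lt_iff_lt.symm
  | neg _ ih => intro e; simp only [Sat, ih e]
  | and _ _ ih1 ih2 => intro e; simp only [Sat, ih1 e, ih2 e]
  | bex n t hn _ ih =>
    intro e
    simp only [Sat, Tm.val, update_self]
    constructor
    · rintro ⟨x, hx, h⟩
      refine ⟨ι x, ?_, ?_⟩
      · rw [val_update_of_notMem _ _ _ _ hn] at hx ⊢
        rw [val_map]
        exact hι hx
      · rw [ih, comp_update] at h
        exact h
    · rintro ⟨x, hx, h⟩
      rw [val_update_of_notMem _ _ _ _ hn, val_map] at hx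
      obtain ⟨z, rfl⟩ := hI _ _ hx
      refine ⟨z, ?_, ?_⟩
      · rw [val_update_of_notMem _ _ _ _ hn]
        exact hι.lt_iff_lt.1 hx
      · rw [ih, comp_update]
        exact h

end Pool.FDA
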