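import Pool.Agent.H86.FDA.Tools

namespace Pool.FDA

open Function Filter

/-- The bounded part of the ultrapower. -/
def bPart (J : Type) [PAM J] : Subsemiring (UP J) where
  carrier := {z | ∃ c : J, z ≤ cst c}
  zero_mem' := ⟨0, le_rfl⟩
  one_mem' := ⟨1, le_rfl⟩
  add_mem' := by
    rintro a b ⟨c, hc⟩ ⟨c', hc'⟩
    exact ⟨c + c', add_le_add hc hc'⟩
  mul_mem' := by
    rintro a b ⟨c, hc⟩ ⟨c', hc'⟩
    exact ⟨c * c', mul_le_mul hc hc' (pam_zero_le _) (pam_zero_le _)⟩

noncomputable instance instPAMbPart (J : Type) [PAM J] : PAM (bPart J) where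
  zero_le' x := pam_zero_le (x : UP J)
  sub' x y h := by
    obtain ⟨z, hz⟩ := PAM.sub' (x : UP J) (y : UP J) h
    obtain ⟨c, hc⟩ := y.2
    have hzy : z ≤ (y : UP J) := by rw [← hz]; exact le_add_of_nonneg_left (pam_zero_le _)
    exact ⟨⟨z, c, hzy.trans hc⟩, Subtype.ext hz⟩
  disc' x h := PAM.disc' (x : UP J) h

theorem t_bup : BUPStmt := by
  intro J _
  have hcst : StrictMono (cst : J → UP J) := by
    intro a b h
    change ((fun _ => a : ℕ → J) : UP J) < ((fun _ => b : ℕ → J) : UP J)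
    rw [Germ.coe_lt]
    exact Eventually.of_forall fun _ => h
  refine ⟨bPart J, inferInstance,
    { toFun := fun a => ⟨cst a, a, le_rfl⟩
      map_one' := rfl
      map_mul' := fun _ _ => rfl
      map_zero' := rfl
      map_add' := fun _ _ => rfl }, (bPart J).subtype, ?_⟩
  refine ⟨fun a b h => hcst h, fun a b h => h, fun a => rfl, ?_, ?_⟩
  · rintro ⟨y, c, hc⟩
    exact ⟨c, hc⟩
  · intro z c hz
    exact ⟨⟨z, c, hz⟩, rfl⟩

end Pool.FDA
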