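import Pool.Agent.H86.FDA.Tools

namespace Pool.FDA

open Function Filter

theorem t_cod (hPAA : PAAStmt) : CODStmt := by
  classical
  intro J J' _ _ i j H hy Z
  obtain ⟨y₀, hy₀⟩ := hy
  obtain ⟨P1, P2, P3, P4⟩ := hPAA J
  obtain ⟨Q1, Q2, Q3, Q4⟩ := hPAA J'
  have hini : Ini j := H.ini
  -- values
  let c : ℕ → ℕ := fun k => if k ∈ Z then 0 else 1
  -- finite codes
  have hfin : ∀ n : ℕ, ∃ b : ℕ × ℕ, ∀ k < n, c k = b.1 % (1 + (k + 1) * b.2) := by
    intro n
    let l : List ℕ := (List.range n).map c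
    refine ⟨(Nat.unbeta l).unpair, fun k hk => ?_⟩
    have hlen : k < l.length := by simp [l, hk]
    have := Nat.beta_unbeta_coe l ⟨k, hlen⟩
    have h2 : l[(⟨k, hlen⟩ : Fin l.length)] = c k := by simp [l]
    rw [h2] at this
    simp only [Nat.beta] at this
    rw [add_comm 1]
    exact this.symm
  choose b hb using hfin
  have hin : ∀ f : ℕ → ℕ, ∃ s : J', j s = ((fun n => (f n : J) : ℕ → J) : UP J) := by
    intro f
    refine H.conv _ y₀ ?_
    change ((fun n => (f n : J) : ℕ → J) : UP J) ≤ ((fun _ => y₀ : ℕ → J) : UP J)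
    rw [Germ.coe_le]
    exact Eventually.of_forall fun n => hy₀ (f n)
  obtain ⟨s₁, hs₁⟩ := hin fun n => (b n).1
  obtain ⟨s₂, hs₂⟩ := hin fun n => (b n).2
  have hval : ∀ k : ℕ, Beta s₁ s₂ (k : J') (c k : J') := by
    intro k
    rw [← beta_map j H.jmono hini, hs₁, hs₂, map_natCast, map_natCast, ← cst_nat, ← cst_nat]
    change Beta ((fun n => ((b n).1 : J) : ℕ → J) : UP J) ((fun n => ((b n).2 : J) : ℕ → J) : UP J)
      ((fun _ => (k : J) : ℕ → J) : UP J) ((fun _ => (c k : J) : ℕ → J) : UP J)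
    rw [beta_germ]
    filter_upwards [ev_gt k] with n hn
    exact P4 _ _ _ _ (hb n k hn)
  refine ⟨s₁, s₂, fun k => ?_⟩
  constructor
  · rintro ⟨w, hw⟩
    by_contra hk
    have h1 := Q2 _ _ _ _ _ hw (hval k)
    have h2 : c k = 1 := if_neg hk
    rw [h2] at h1
    exact Q3 w 0 (by rw [h1]; simp)
  · intro hk
    have h2 : c k = 0 := if_pos hk
    refine ⟨0, ?_⟩
    have := hval k
    rw [h2, Nat.cast_zero] at this
    rw [add_zero]
    exact this

end Pool.FDA
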