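import Pool.Agent.H86.FDA.Tools

namespace Pool.FDA

open Function Filter

theorem t_lnp (hC : COIStmt) : LNPStmt := by
  intro K _ hI φ hφ x e ⟨u, hu⟩
  by_contra hno
  push_neg at hno
  -- bounded formula `∀ w < x, ¬ φ(w)` written with a fresh variable
  obtain ⟨w, hw⟩ := Infinite.exists_notMem_finset (φ.fv ∪ {x})
  simp only [Finset.mem_union, Finset.mem_singleton, not_or] at hw
  obtain ⟨hwφ, hwx⟩ := hw
  -- `ψ := ¬ ∃ x < w, φ`
  let ψ : Fm := .neg (.ex x (.and (.lt (.var x) (.var w)) φ))
  have hψ : D0 ψ := .neg (.bex x (.var w) (by simp [Tm.vars, Ne.symm hwx]) hφ)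
  have hsat : ∀ a : K, Sat (update e w a) ψ ↔ ∀ v < a, ¬ Sat (update e x v) φ := by
    intro a
    simp only [ψ, Sat, Tm.val, not_exists, not_and]
    refine forall_congr' fun v => ?_
    rw [update_self, update_of_ne hwx, update_self]
    refine imp_congr_right fun _ => not_congr (hC K φ _ _ fun n hn => ?_)
    have hnw : n ≠ w := fun h => hwφ (h ▸ hn)
    by_cases hnx : n = x
    · subst hnx; simp
    · rw [update_of_ne hnx, update_of_ne hnx, update_of_ne hnw]
  have hall := hI ψ hψ w e ((hsat 0).2 fun v hv => absurd hv (not_lt.2 (pam_zero_le v)))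
    (fun a ha => by
      rw [hsat] at ha ⊢
      intro v hv hs
      rcases (pam_lt_succ hv).eq_or_lt with h | h
      · subst h
        obtain ⟨v', hv', hs'⟩ := hno v hs
        exact ha v' hv' hs'
      · exact ha v h hs) (u + 1)
  rw [hsat] at hall
  exact hall u (pam_lt_add_one u) hu

end Pool.FDA
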