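import Pool.Agent.H86.FDA.Tools

namespace Pool.FDA

open Function Filter

theorem bsigma_coll {K : Type} [PAM K] (h : BSigma1 K) : Coll0 K :=
  fun φ hφ x y hxy e a => h φ (.up true (.base false hφ)) x y hxy e a

theorem restricted_mono (hS : SPMStmt) {M : Type} [PAM M] (h : Restricted 2 M) :
    Restricted 3 M := by
  obtain ⟨A, hA, hax⟩ := h
  exact ⟨A, fun σ hσ => ⟨(hA σ hσ).1, hS σ (hA σ hσ).2.1, (hA σ hσ).2.2⟩, hax⟩

theorem t_main (hCOR : CORStmt) (hCJ : CJStmt) (hS : SPMStmt) : MAINStmt := by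
  refine ⟨fun M _ hI hR => ?_, fun M _ hI hB hS1 => hCOR M hI (bsigma_coll hB) hS1⟩
  obtain ⟨K, _, h1, h2, h3, h4⟩ := hCJ M hI hR
  exact hCOR K h1 h2 h3 (restricted_mono hS h4)

end Pool.FDA
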