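import Pool.Agent.H86.FDA.Tools

namespace Pool.FDA

open Function Filter

theorem beta_unique {K : Type} [PAM K] (b₁ b₂ i v v' : K) (h : Beta b₁ b₂ i v)
    (h' : Beta b₁ b₂ i v') : v = v' := by
  obtain ⟨h1, q, hq⟩ := h
  obtain ⟨h1', q', hq'⟩ := h'
  set m : K := 1 + (i + 1) * b₂ with hm
  have key : ∀ q q' v v' : K, v < m → q * m + v = q' * m + v' → ¬ q < q' := by
    intro q q' v v' hv he hlt
    have h2 : q + 1 ≤ q' := pam_succ_le hlt
    have h3 : (q + 1) * m ≤ q' * m := mul_le_mul_of_nonneg_right h2 (pam_zero_le m)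
    have h4 : q * m + v < (q + 1) * m := by
      rw [add_mul, one_mul]
      exact add_lt_add_right hv _
    have h5 : q' * m ≤ q' * m + v' := le_add_of_nonneg_right (pam_zero_le v')
    have := (h4.trans_le h3).trans_le h5
    rw [he] at this
    exact lt_irrefl _ this
  have he : q * m + v = q' * m + v' := by rw [← hq, ← hq']
  have hqq : q = q' :=
    le_antisymm (not_lt.1 (key q' q v' v h1' he.symm)) (not_lt.1 (key q q' v v' h1 he))
  rw [hqq] at he
  exact add_left_cancel he

theorem t_paa : PAAStmt := by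
  intro K _
  refine ⟨?_, beta_unique, ?_, ?_⟩
  · intro n
    induction n with
    | zero =>
      intro v hv
      refine ⟨0, le_rfl, ?_⟩
      rw [Nat.cast_zero] at hv ⊢
      exact le_antisymm hv (pam_zero_le v)
    | succ n ih =>
      intro v hv
      rcases hv.eq_or_lt with h | h
      · exact ⟨n + 1, le_rfl, h⟩
      · rw [Nat.cast_add, Nat.cast_one] at h
        obtain ⟨m, hm, rfl⟩ := ih v (pam_lt_succ h)
        exact ⟨m, by omega, rfl⟩
  · intro u w h
    rcases le_or_gt u w with h1 | h1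
    · have h2 : u + u ≤ w + w := add_le_add h1 h1
      rw [h] at h2
      exact absurd (pam_lt_add_one (w + w)) (not_lt.2 h2)
    · have h2 : w + 1 ≤ u := pam_succ_le h1
      have h3 : (w + 1) + (w + 1) ≤ u + u := add_le_add h2 h2
      rw [h] at h3
      have h4 : w + w + 1 < (w + 1) + (w + 1) := by
        have : (w + 1) + (w + 1) = (w + w + 1) + 1 := by ring
        rw [this]
        exact pam_lt_add_one _
      exact absurd h4 (not_lt.2 h3)
  · intro b₁ b₂ i v hv
    have hpos : 0 < 1 + (i + 1) * b₂ := by positivity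
    have h1 : v < 1 + (i + 1) * b₂ := hv ▸ Nat.mod_lt _ hpos
    have h2 : b₁ = (b₁ / (1 + (i + 1) * b₂)) * (1 + (i + 1) * b₂) + v := by
      rw [hv, mul_comm]
      exact (Nat.div_add_mod _ _).symm
    refine ⟨by exact_mod_cast h1, ((b₁ / (1 + (i + 1) * b₂) : ℕ) : K), ?_⟩
    exact_mod_cast h2

end Pool.FDA
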