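import Pool.Agent.H86.FDA.Tools

namespace Pool.FDA

open Function Filter

namespace Rep

/-- the coded sequence is strictly increasing up to `d` -/
def Mono {K : Type} [PAM K] (b₁ b₂ d : K) : Prop :=
  ∀ k ≤ d, ∃ v, Beta b₁ b₂ k v ∧ ∀ l < k, ∃ v', Beta b₁ b₂ l v' ∧ v' < v

theorem mono_germ {K : Type} [PAM K] (f g h : ℕ → K)
    (H : ∀ᶠ n in (hyperfilter ℕ : Filter ℕ), Mono (f n) (g n) (h n)) :
    Mono (f : UP K) (g : UP K) (h : UP K) := by
  classical
  intro k hk
  obtain ⟨k, rfl⟩ := germ_ex k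
  rw [Germ.coe_le] at hk
  refine ⟨((fun n => if hn : ∃ v, Beta (f n) (g n) (k n) v ∧
      ∀ l < k n, ∃ v', Beta (f n) (g n) l v' ∧ v' < v then hn.choose else 0 : ℕ → K) : UP K),
    ?_, ?_⟩
  · rw [beta_germ]
    filter_upwards [H, hk] with n h1 h2
    have hn := h1 (k n) h2
    rw [dif_pos hn]
    exact hn.choose_spec.1
  · intro l hl
    obtain ⟨l, rfl⟩ := germ_ex l
    rw [Germ.coe_lt] at hl
    refine ⟨((fun n => if hn : ∃ v', Beta (f n) (g n) (l n) v' ∧
      ∀ v, (∃ v, Beta (f n) (g n) (k n) v ∧ ∀ l < k n, ∃ v', Beta (f n) (g n) l v' ∧ v' < v) →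
        (if hn : ∃ v, Beta (f n) (g n) (k n) v ∧
      ∀ l < k n, ∃ v', Beta (f n) (g n) l v' ∧ v' < v then hn.choose else 0) = v → v' < v
      then hn.choose else 0 : ℕ → K) : UP K), ?_, ?_⟩
    · rw [beta_germ]
      filter_upwards [H, hk, hl] with n h1 h2 h3
      have hn := h1 (k n) h2
      have hn' : ∃ v', Beta (f n) (g n) (l n) v' ∧
        ∀ v, (∃ v, Beta (f n) (g n) (k n) v ∧ ∀ l < k n, ∃ v', Beta (f n) (g n) l v' ∧ v' < v) →
        (if hn : ∃ v, Beta (f n) (g n) (k n) v ∧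
        ∀ l < k n, ∃ v', Beta (f n) (g n) l v' ∧ v' < v then hn.choose else 0) = v → v' < v := by
        obtain ⟨v', hv1, hv2⟩ := hn.choose_spec.2 (l n) h3
        refine ⟨v', hv1, fun v _ hv => ?_⟩
        rw [dif_pos hn] at hv
        rw [← hv]; exact hv2
      rw [dif_pos hn']
      exact hn'.choose_spec.1
    · rw [Germ.coe_lt]
      filter_upwards [H, hk, hl] with n h1 h2 h3
      have hn := h1 (k n) h2
      have hn' : ∃ v', Beta (f n) (g n) (l n) v' ∧
        ∀ v, (∃ v, Beta (f n) (g n) (k n) v ∧ ∀ l < k n, ∃ v', Beta (f n) (g n) l v' ∧ v' < v) →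
        (if hn : ∃ v, Beta (f n) (g n) (k n) v ∧
        ∀ l < k n, ∃ v', Beta (f n) (g n) l v' ∧ v' < v then hn.choose else 0) = v → v' < v := by
        obtain ⟨v', hv1, hv2⟩ := hn.choose_spec.2 (l n) h3
        refine ⟨v', hv1, fun v _ hv => ?_⟩
        rw [dif_pos hn] at hv
        rw [← hv]; exact hv2
      rw [dif_pos hn']
      exact hn'.choose_spec.2 _ hn rfl

end Rep

theorem t_rep (hFIX : FIXStmt) (hSEQ : SEQStmt) (hCRT : CRTStmt) (hLOS : LOSStmt) (hINI : INIStmt)
    (hPAA : PAAStmt) (hLNP : LNPStmt) (hCOI : COIStmt) : REPStmt := by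
  intro J J' _ _ i j H hcnt hID ε x y hε hxy p e₀ hCD hy₀ ψ hψ E
  obtain ⟨y₀, hy₀⟩ := hy₀
  obtain ⟨a, aL, ae, amono, acof, aev, aod⟩ := hSEQ J hcnt hID ε x y hε hxy p e₀ hCD
  obtain ⟨P1, P2, P3, -⟩ := hPAA J
  obtain ⟨Q1, Q2, Q3, -⟩ := hPAA J'
  -- strict monotonicity
  have amono' : ∀ m k : ℕ, k < m → ∀ b b', a k b < a m b' := by
    intro m
    induction m with
    | zero => intro k hk; exact absurd hk (Nat.not_lt_zero k)
    | succ m ih =>
      intro k hk b b'
      rcases Nat.lt_succ_iff_lt_or_eq.1 hk with h | rfl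
      · exact (ih k h b true).trans (amono m true b')
      · exact amono k b b'
  -- the set of points
  let S : Type := {t : J × J × J // t.1 ≤ y₀ ∧ t.2.1 ≤ y₀ ∧ t.2.2 ≤ y₀}
  let C : ℕ → Bool → Set S := fun n b => {t | Beta t.1.1 t.1.2.1 (n : J) (a n b) ∧
    (n : J) ≤ t.1.2.2 ∧ Rep.Mono t.1.1 t.1.2.1 t.1.2.2}
  let Θ : ℕ → Set S := fun k =>
    {t | Sat (update (update (update (E k) 2 t.1.1) 3 t.1.2.1) 4 t.1.2.2) (ψ k)}
  have hyN : ∀ n : ℕ, (n : J) ≤ y₀ := by
    intro n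
    refine le_trans ?_ (hy₀ n)
    have h2 : ((n : ℕ) : J) ≤ ((2 ^ n : ℕ) : J) := by exact_mod_cast (Nat.lt_two_pow_self).le
    refine h2.trans ?_
    push_cast
    have : (2 : J) ≤ e₀ + 2 := le_add_of_nonneg_left (pam_zero_le _)
    exact pow_le_pow_left₀ (by positivity) this n
  have hfin : ∀ (n : ℕ) (u : ℕ → Bool), ∃ t, ∀ k < n, t ∈ C k (u k) := by
    intro n u
    obtain ⟨N, hN⟩ := hCRT (n + 1)
    obtain ⟨b₁, b₂, h1, h2, h3⟩ := hN J hID e₀ (fun k => a k (u k)) (fun k _ => ae k (u k))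
    refine ⟨⟨(b₁, b₂, (n : J)), h1.trans (hy₀ N), h2.trans (hy₀ N), hyN n⟩, fun k hk => ?_⟩
    have hkn : (k : J) ≤ (n : J) := by exact_mod_cast hk.le
    refine ⟨h3 k (by omega), hkn, ?_⟩
    intro k' hk'
    obtain ⟨m, hm, rfl⟩ := P1 n k' hk'
    refine ⟨a m (u m), h3 m (by omega), fun l hl => ?_⟩
    obtain ⟨l', hl', rfl⟩ := P1 m l hl.le
    have hl2 : l' < m := by exact_mod_cast hl
    exact ⟨a l' (u l'), h3 l' (by omega), amono' m l' hl2 _ _⟩
  obtain ⟨X, L, t, hX, hL, hlim⟩ := hFIX S C Θ hfin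
  -- the parameters
  let f₁ : ℕ → J := fun n => (t n).1.1
  let f₂ : ℕ → J := fun n => (t n).1.2.1
  let f₃ : ℕ → J := fun n => (t n).1.2.2
  have hb : ∀ f : ℕ → J, (∀ n, f n ≤ y₀) → ∃ b : J', j b = ((f : ℕ → J) : UP J) := by
    intro f hf
    refine H.conv _ y₀ ?_
    change ((f : ℕ → J) : UP J) ≤ ((fun _ => y₀ : ℕ → J) : UP J)
    rw [Germ.coe_le]
    exact Eventually.of_forall hf
  obtain ⟨b₁, hb₁⟩ := hb f₁ fun n => (t n).2.1
  obtain ⟨b₂, hb₂⟩ := hb f₂ fun n => (t n).2.2.1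
  obtain ⟨d, hd⟩ := hb f₃ fun n => (t n).2.2.2
  have hini : Ini j := H.ini
  have habsi : Abs0 i := H.abs_i hLOS hINI
  -- values at standard places
  have hval : ∀ n : ℕ, Beta b₁ b₂ (n : J') (i (a n (X n))) := by
    intro n
    rw [← beta_map j H.jmono hini, hb₁, hb₂, H.comm, map_natCast, ← cst_nat]
    change Beta ((f₁ : ℕ → J) : UP J) ((f₂ : ℕ → J) : UP J)
      ((fun _ => (n : J) : ℕ → J) : UP J) ((fun _ => a n (X n) : ℕ → J) : UP J)
    rw [beta_germ]
    filter_upwards [ev_gt n] with m hm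
    exact (hX m n hm).1
  have hnd : ∀ n : ℕ, (n : J') ≤ d := by
    intro n
    rw [← H.jmono.le_iff_le, hd, map_natCast, ← cst_nat]
    change ((fun _ => (n : J) : ℕ → J) : UP J) ≤ ((f₃ : ℕ → J) : UP J)
    rw [Germ.coe_le]
    filter_upwards [ev_gt n] with m hm
    exact (hX m n hm).2.1
  have hmono : Rep.Mono (j b₁) (j b₂) (j d) := by
    rw [hb₁, hb₂, hd]
    apply Rep.mono_germ
    filter_upwards [ev_gt 0] with m hm
    exact (hX m 0 hm).2.2
  -- the bounded formula
  obtain ⟨V, Z, hV1, hZ1, hV2, hZ2, hVZ, hVf, hZf⟩ := fresh2 ε x y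
  have hB := fun {K : Type} [PAM K] (p : ℕ → K) (v z : K) =>
    bnd_sat hCOI hxy hV1 hZ1 hV2 hZ2 hVZ hVf hZf p v z
  have hBD : D0 (bnd ε x y V Z) := bnd_D0 hε hV1 hZ1
  have htr : ∀ v z : J, (∀ x' ≤ v, ∃ y' ≤ z, Sat (update (update p x x') y y') ε) ↔
      (∀ x' ≤ i v, ∃ y' ≤ i z, Sat (update (update (fun n => i (p n)) x x') y y') ε) := by
    intro v z
    rw [← hB, ← hB, habsi _ hBD, comp_update i, comp_update i]
  have hLup : ∀ v, InL ε x y p v → InL ε x y (fun n => i (p n)) (i v) := by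
    rintro v ⟨z, hz⟩
    exact ⟨i z, (htr v z).1 hz⟩
  have hLdown : ∀ w : J', InL ε x y (fun n => i (p n)) w → ∃ n, ∀ b, w ≤ i (a n b) := by
    rintro w ⟨z, hz⟩
    obtain ⟨z₀, hz₀⟩ := H.cof z
    have hz' : ∀ x' ≤ w, ∃ y' ≤ i z₀,
        Sat (update (update (fun n => i (p n)) x x') y y') ε := by
      intro x' hx'
      obtain ⟨y', h1, h2⟩ := hz x' hx'
      exact ⟨y', h1.trans hz₀, h2⟩
    -- the least `m` in `J` where the bound fails
    have hne : ∃ u, Sat (update (update p Z z₀) V u) (.neg (bnd ε x y V Z)) := by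
      refine ⟨e₀, ?_⟩
      intro hs
      rw [update_comm hVZ.symm, hB] at hs
      obtain ⟨y', _, h⟩ := hs e₀ le_rfl
      exact hCD.top y' h
    obtain ⟨m, hm1, hm2⟩ := hLNP J hID (.neg (bnd ε x y V Z)) (.neg hBD) V (update p Z z₀) hne
    have hm1' : ¬ ∀ x' ≤ m, ∃ y' ≤ z₀, Sat (update (update p x x') y y') ε := by
      intro hs
      apply hm1
      rw [update_comm hVZ.symm, hB]
      exact hs
    have hwm : w < i m := by
      by_contra hc
      apply hm1'
      rw [htr]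
      intro x' hx'
      exact hz' x' (hx'.trans (not_lt.1 hc))
    have hm0 : 0 < m := by
      have := (pam_zero_le w).trans_lt hwm
      rw [← map_zero i, H.imono.lt_iff_lt] at this
      exact this
    obtain ⟨m', rfl⟩ := pam_pred hm0
    have hm3 : InL ε x y p m' := by
      refine ⟨z₀, ?_⟩
      have := hm2 m' (pam_lt_add_one m')
      simp only [Sat, not_not] at this
      rw [update_comm hVZ.symm, hB] at this
      exact this
    obtain ⟨n, hn⟩ := acof m' hm3
    refine ⟨n, fun b => ?_⟩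
    have hwm' : w ≤ i m' := by
      rw [map_add, map_one] at hwm
      exact pam_lt_succ hwm
    exact hwm'.trans (H.imono.monotone (hn b))
  refine ⟨X, L, b₁, b₂, d, ?_, ?_, ?_, hlim⟩
  · -- the set is `ℕ`
    intro v
    constructor
    · rintro ⟨hvd, w, hw1, hw2⟩
      by_contra hns
      have hgt : ∀ n : ℕ, (n : J') < v := by
        intro n
        by_contra hc
        obtain ⟨m, _, hm⟩ := Q1 n v (not_lt.1 hc)
        exact hns ⟨m, hm⟩
      obtain ⟨n, hn⟩ := hLdown w hw2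
      obtain ⟨w₁, hw₁, hlt⟩ := hmono (j v) (H.jmono.monotone hvd)
      have hww : w₁ = j w := by
        obtain ⟨-, U2, -, -⟩ := hPAA (UP J)
        exact U2 _ _ _ _ _ hw₁ ((beta_map j H.jmono hini _ _ _ _).2 hw1)
      obtain ⟨v', hv', hv'w⟩ := hlt (j (n : J')) (H.jmono (hgt n))
      have hvv : v' = j (i (a n (X n))) := by
        obtain ⟨-, U2, -, -⟩ := hPAA (UP J)
        exact U2 _ _ _ _ _ hv' ((beta_map j H.jmono hini _ _ _ _).2 (hval n))
      rw [hvv, hww, H.jmono.lt_iff_lt] at hv'w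
      exact absurd (hn (X n)) (not_le.2 hv'w)
    · rintro ⟨n, rfl⟩
      exact ⟨hnd n, i (a n (X n)), hval n, hLup _ (aL n (X n))⟩
  · -- the parities
    intro n
    constructor
    · rintro ⟨w, hw⟩
      by_contra hXn
      rw [Bool.not_eq_true] at hXn
      have h1 := Q2 _ _ _ _ _ hw (hval n)
      obtain ⟨w', hw'⟩ := aod n
      rw [hXn, hw', map_add, map_add, map_one] at h1
      exact Q3 w (i w') h1
    · intro hXn
      obtain ⟨w, hw⟩ := aev n
      refine ⟨i w, ?_⟩
      have := hval n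
      rw [hXn, hw, map_add] at this
      exact this
  · -- the formulas
    intro k
    rw [(H.abs_j hINI) _ (hψ k)]
    have hE : (fun n => j (update (update (update (fun n => i (E k n)) 2 b₁) 3 b₂) 4 d n)) =
        fun n => ((fun m => update (update (update (E k) 2 (f₁ m)) 3 (f₂ m)) 4 (f₃ m) n :
          ℕ → J) : UP J) := by
      rw [comp_update j, comp_update j, comp_update j, hb₁, hb₂, hd]
      funext n
      by_cases h4 : n = 4
      · subst h4; simp
      · rw [update_of_ne h4]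
        by_cases h3 : n = 3
        · subst h3
          simp only [update_self]
          congr 1
        · rw [update_of_ne h3]
          by_cases h2 : n = 2
          · subst h2
            simp only [update_self]
            congr 1
          · rw [update_of_ne h2, H.comm]
            change ((fun _ => E k n : ℕ → J) : UP J) = _
            congr 1
            funext m
            rw [update_of_ne h4, update_of_ne h3, update_of_ne h2]
    rw [hE, hLOS]
    have hev : ∀ᶠ m in (hyperfilter ℕ : Filter ℕ),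
        (Sat (fun n => update (update (update (E k) 2 (f₁ m)) 3 (f₂ m)) 4 (f₃ m) n) (ψ k) ↔
          L k = true) := by
      filter_upwards [ev_gt k] with m hm
      exact hL m k hm
    constructor
    · intro h
      obtain ⟨m, hm1, hm2⟩ := (h.and hev).exists
      exact hm2.1 hm1
    · intro h
      filter_upwards [hev] with m hm
      exact hm.2 h

end Pool.FDA
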