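import Pool.Agent.H86.FDA.Tools

namespace Pool.FDA

open Function Filter

theorem sp_mono {b : Bool} {n : ℕ} {φ : Fm} (h : SP b n φ) : SP b (n + 1) φ := by
  induction h with
  | base b h => exact .up b (.base (!b) h)
  | @up b n φ h ih => exact .up b ih
  | ex x _ ih => exact .ex x ih
  | all x _ ih => exact .all x ih

theorem t_spm : SPMStmt := fun _ h => sp_mono h

end Pool.FDA
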