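import Pool.Agent.H86.FDA.Tools

namespace Pool.FDA

open Function Filter

/-- If one of the sets `InN` is `ℕ` then every good minimal one is. -/
theorem inN_eq_nat {K : Type} [PAM K] {ε : Fm} {x y : ℕ}
    (h : ∃ (p : ℕ → K) (b₁ b₂ d : K), ∀ v : K, InN ε x y p b₁ b₂ d v ↔ ∃ n : ℕ, v = n)
    {p : ℕ → K} {b₁ b₂ d : K} (hG : Good ε x y p b₁ b₂ d) (hM : Mini ε x y p b₁ b₂ d) (v : K) :
    InN ε x y p b₁ b₂ d v ↔ ∃ n : ℕ, v = n := by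
  constructor
  · intro hv
    obtain ⟨p₀, c₁, c₂, c, h₀⟩ := h
    refine (h₀ v).1 (hM v hv p₀ c₁ c₂ c ⟨(h₀ 0).2 ⟨0, by simp⟩, fun i hi => ?_⟩)
    obtain ⟨n, rfl⟩ := (h₀ i).1 hi
    exact (h₀ _).2 ⟨n + 1, by simp⟩
  · rintro ⟨n, rfl⟩
    induction n with
    | zero => rw [Nat.cast_zero]; exact hG.1
    | succ n ih => rw [Nat.cast_add, Nat.cast_one]; exact hG.2 _ ih

theorem t_xj1 : XJ1Stmt := by
  intro K _ ε x y h hcode p b₁ b₂ d hG hM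
  have hN := inN_eq_nat h hG hM
  obtain ⟨s₁, s₂, hs⟩ := hcode {k : ℕ | ∀ m : ℕ, ¬ Lim ε x y p b₁ b₂ d (pr (k : K) (m : K))}
  refine ⟨s₁, s₂, fun k hk => ?_⟩
  obtain ⟨n, rfl⟩ := (hN k).1 hk
  rw [hs n, Set.mem_setOf_eq]
  constructor
  · intro H m hm
    obtain ⟨m', rfl⟩ := (hN m).1 hm
    exact H m'
  · intro H m
    exact H _ ((hN _).2 ⟨m, rfl⟩)

end Pool.FDA
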