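import Pool.Agent.H86.FDA.Tools2
import Pool.Agent.H86.FDA.XJ1

namespace Pool.FDA

open Function Filter

theorem t_xj2 (hHUL : HULStmt) (hREP : REPStmt) (hDGA : DGAStmt) (hCOI : COIStmt)
    (hLOS : LOSStmt) (hINI : INIStmt) (hTRS : TRSStmt) (hTRI : TRIStmt) : XJ2Stmt := by
  classical
  intro J J' _ _ i j H hcnt hID ε x y hε hxy p e₀ hCD hy₀
  -- `IΔ₀` in `J'`
  have hIDU : IDelta0 (UP J) := by
    have habs : AbsAll (j.comp i : J →+* UP J) := by
      intro φ e
      rw [up_elem hLOS J φ e]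
      simp only [RingHom.comp_apply, H.comm]
    exact (hTRS J (UP J) (j.comp i) (H.jmono.comp H.imono) habs).1.1 hID
  have hIDJ' : IDelta0 J' := (hTRI J' (UP J) j H.jmono H.ini hIDU).1
  -- enumeration of the formulas with parameters
  let T : Type := {φ : Fm // D0 φ} × {E : ℕ → J // {n | E n ≠ 0}.Finite}
  have hTc : Countable T := by
    have : Countable {E : ℕ → J // {n | E n ≠ 0}.Finite} := by
      have hi : Function.Injective (fun E : {E : ℕ → J // {n | E n ≠ 0}.Finite} =>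
          (Finsupp.ofSupportFinite E.1 E.2 : ℕ →₀ J)) := by
        intro E E' h
        apply Subtype.ext
        funext n
        exact DFunLike.congr_fun h n
      exact hi.countable
    infer_instance
  have hTn : Nonempty T := ⟨⟨⟨.eq .zero .zero, .eq _ _⟩, ⟨fun _ => 0, by simp⟩⟩⟩
  obtain ⟨F, hF⟩ := exists_surjective_nat T
  have hJn : Nonempty J := ⟨0⟩
  obtain ⟨c, hc⟩ := exists_surjective_nat J
  -- fresh variables
  have hfresh : ∀ k : ℕ, ∃ V : ℕ, V ∉ (F k).1.1.fv ∧ 5 ≤ V := by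
    intro k
    obtain ⟨V, hV⟩ := Infinite.exists_notMem_finset ((F k).1.1.fv ∪ Finset.range 5)
    simp only [Finset.mem_union, Finset.mem_range, not_or, not_lt] at hV
    exact ⟨V, hV⟩
  choose V hV1 hV2 using hfresh
  -- the list of formulas
  let ψ' : ℕ → Fm := fun k =>
    .ex 0 (.and (.lt (.var 0) (.add (.var (V k)) .one)) (F k).1.1)
  let E' : ℕ → ℕ → ℕ → J := fun k m => update (update (F k).2.1 1 (k : J)) (V k) (c m)
  let dec : ℕ → Option (ℕ × ℕ) := fun l =>
    if h : ∃ q : ℕ × ℕ, prN q.1 q.2 = l then some h.choose else none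
  have hinj : ∀ a b a' b' : ℕ, prN a b = prN a' b' → a = a' ∧ b = b' := by
    intro n j n' j' h
    unfold prN at h
    have key : ∀ a b c d : ℕ, a + b < c + d →
        (a + b) * (a + b) + a < (c + d) * (c + d) + c := by
      intro a b c d hh
      nlinarith
    rcases lt_trichotomy (n + j) (n' + j') with h1 | h1 | h1
    · have := key n j n' j' h1; omega
    · rw [h1] at h
      omega
    · have := key n' j' n j h1; omega
  have hdec : ∀ k m, dec (prN k m) = some (k, m) := by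
    intro k m
    have h : ∃ q : ℕ × ℕ, prN q.1 q.2 = prN k m := ⟨(k, m), rfl⟩
    simp only [dec, dif_pos h]
    obtain ⟨h1, h2⟩ := hinj _ _ _ _ h.choose_spec
    congr 1
    exact Prod.ext h1 h2
  let ψ : ℕ → Fm := fun l => ((dec l).map fun q => ψ' q.1).getD (.eq .zero .zero)
  let E : ℕ → ℕ → J := fun l => ((dec l).map fun q => E' q.1 q.2).getD fun _ => 0
  have hψ' : ∀ k, D0 (ψ' k) := by
    intro k
    have := hV2 k
    refine .bex 0 _ ?_ (F k).1.2
    simp only [Tm.vars, Finset.union_empty, Finset.mem_singleton]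
    omega
  have hψ : ∀ l, D0 (ψ l) := by
    intro l
    simp only [ψ]
    cases dec l with
    | none => exact .eq _ _
    | some q => exact hψ' q.1
  obtain ⟨X, L, b₁, b₂, d, h1, h2, h3, h4⟩ :=
    hREP J J' i j H hcnt hID ε x y hε hxy p e₀ hCD hy₀ ψ hψ E
  refine ⟨⟨b₁, b₂, d, h1⟩, ?_⟩
  -- the meaning of the formulas
  have hmean : ∀ k m : ℕ, L (prN k m) = true ↔ ∃ z ≤ i (c m),
      Sat (update (update (update (update (update (fun n => i ((F k).2.1 n))
        0 z) 1 (k : J')) 2 b₁) 3 b₂) 4 d) (F k).1.1 := by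
    intro k m
    rw [← h3]
    have e1 : ψ (prN k m) = ψ' k := by simp [ψ, hdec]
    have e2 : E (prN k m) = E' k m := by simp [E, hdec]
    rw [e1, e2]
    simp only [ψ', Sat, Tm.val, update_self]
    refine exists_congr fun z => ?_
    have hVk := hV2 k
    rw [update_of_ne (show V k ≠ 0 by omega), update_of_ne (show V k ≠ 4 by omega),
      update_of_ne (show V k ≠ 3 by omega), update_of_ne (show V k ≠ 2 by omega)]
    have e3 : i (E' k m (V k)) = i (c m) := by simp [E']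
    rw [e3]
    have e4 : (z < i (c m) + 1) ↔ z ≤ i (c m) :=
      ⟨pam_lt_succ, fun h => lt_of_le_of_lt h (pam_lt_add_one _)⟩
    rw [e4]
    refine and_congr_right fun _ => hCOI J' _ _ _ fun n hn => ?_
    have hnV : n ≠ V k := fun h => hV1 k (h ▸ hn)
    by_cases n0 : n = 0
    · subst n0; simp
    · rw [update_of_ne n0]
      by_cases n4 : n = 4
      · subst n4; simp
      · rw [update_of_ne n4, update_of_ne n4]
        by_cases n3 : n = 3
        · subst n3; simp
        · rw [update_of_ne n3, update_of_ne n3]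
          by_cases n2 : n = 2
          · subst n2; simp
          · rw [update_of_ne n2, update_of_ne n2]
            by_cases n1 : n = 1
            · subst n1
              simp [E', update_of_ne hnV]
            · rw [update_of_ne n1, update_of_ne n0]
              simp [E', update_of_ne hnV, update_of_ne n1]
  -- the hull
  obtain ⟨Hh, _, h, hm, hA0, hA1, hsub, hdef⟩ :=
    hHUL J' hIDJ' (Set.range i ∪ {b₁, b₂, d}) (Or.inl ⟨0, map_zero i⟩)
  have hgex : ∀ a : J, ∃ b : Hh, h b = i a := fun a => hsub (Or.inl ⟨a, rfl⟩)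
  choose g0 hg0 using hgex
  let g : J →+* Hh :=
    { toFun := g0
      map_one' := hm.injective (by rw [hg0, map_one, map_one])
      map_mul' := fun a b => hm.injective (by rw [hg0, map_mul, map_mul, hg0, hg0])
      map_zero' := hm.injective (by rw [hg0, map_zero, map_zero])
      map_add' := fun a b => hm.injective (by rw [hg0, map_add, map_add, hg0, hg0]) }
  have hg : ∀ a, h (g a) = i a := hg0
  refine ⟨Hh, inferInstance, g, h, hg, hm, hA0, hA1, ?_⟩
  intro hXi
  obtain ⟨b₁', hb₁⟩ := hsub (show b₁ ∈ Set.range i ∪ {b₁, b₂, d} by simp)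
  obtain ⟨b₂', hb₂⟩ := hsub (show b₂ ∈ Set.range i ∪ {b₁, b₂, d} by simp)
  obtain ⟨d', hd⟩ := hsub (show d ∈ Set.range i ∪ {b₁, b₂, d} by simp)
  have hpg : (fun n => h (g (p n))) = fun n => i (p n) := funext fun n => hg (p n)
  have hInN : ∀ v : Hh, InN ε x y (fun n => g (p n)) b₁' b₂' d' v ↔ ∃ n : ℕ, v = n := by
    intro v
    rw [inN_abs hCOI hm hA1 hε hxy, hb₁, hb₂, hd, hpg, h1]
    constructor
    · rintro ⟨n, hn⟩
      exact ⟨n, hm.injective (by rw [hn, map_natCast])⟩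
    · rintro ⟨n, rfl⟩
      exact ⟨n, map_natCast h n⟩
  have hGood : Good ε x y (fun n => g (p n)) b₁' b₂' d' := by
    refine ⟨(hInN 0).2 ⟨0, by simp⟩, fun v hv => ?_⟩
    obtain ⟨n, rfl⟩ := (hInN v).1 hv
    exact (hInN _).2 ⟨n + 1, by simp⟩
  have hMini : Mini ε x y (fun n => g (p n)) b₁' b₂' d' := by
    intro v hv p' c₁ c₂ c₃ hG
    obtain ⟨n, rfl⟩ := (hInN v).1 hv
    clear hv
    induction n with
    | zero => rw [Nat.cast_zero]; exact hG.1
    | succ n ih => rw [Nat.cast_add, Nat.cast_one]; exact hG.2 _ ih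
  obtain ⟨s₁, s₂, hs⟩ := hXi _ b₁' b₂' d' hGood hMini
  -- limits
  have hEvX : ∀ n : ℕ, Ev b₁' b₂' (n : Hh) ↔ X n = true := by
    intro n
    rw [ev_abs hA0, hb₁, hb₂, map_natCast, h2]
  have hLim : ∀ l : ℕ, Lim ε x y (fun n => g (p n)) b₁' b₂' d' ((l : ℕ) : Hh) ↔ L l = true := by
    intro l
    obtain ⟨n₀, hn₀⟩ := h4 l
    constructor
    · rintro ⟨n₁, hn₁, hall⟩
      obtain ⟨n₁, rfl⟩ := (hInN n₁).1 hn₁
      have := hall ((max n₀ n₁ : ℕ) : Hh) ((hInN _).2 ⟨_, rfl⟩)
        (by exact_mod_cast le_max_right n₀ n₁)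
      rw [pr_cast, hEvX, hn₀ _ (le_max_left _ _)] at this
      exact this
    · intro hL
      refine ⟨(n₀ : Hh), (hInN _).2 ⟨_, rfl⟩, fun n hn hle => ?_⟩
      obtain ⟨n, rfl⟩ := (hInN n).1 hn
      rw [pr_cast, hEvX, hn₀ n (by exact_mod_cast hle)]
      exact hL
  -- the diagonal
  obtain ⟨φ, hφ, E₀, hE₀, hφs⟩ := hDGA J J' i b₁ b₂ d (h s₁) (h s₂) (hdef s₁) (hdef s₂)
  obtain ⟨k, hk⟩ := hF ⟨⟨φ, hφ⟩, ⟨E₀, hE₀⟩⟩
  have hk1 : (F k).1.1 = φ := by rw [hk]
  have hk2 : (F k).2.1 = E₀ := by rw [hk]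
  have a1 : Ev s₁ s₂ (k : Hh) ↔ ∃ m : ℕ, L (prN k m) = true := by
    rw [ev_abs hA0, map_natCast, hφs]
    constructor
    · rintro ⟨z, hz⟩
      obtain ⟨a, ha⟩ := H.cof z
      obtain ⟨m, rfl⟩ := hc a
      refine ⟨m, (hmean k m).2 ⟨z, ha, ?_⟩⟩
      rw [hk1, hk2]
      exact hz
    · rintro ⟨m, hm'⟩
      obtain ⟨z, _, hz⟩ := (hmean k m).1 hm'
      refine ⟨z, ?_⟩
      rw [hk1, hk2] at hz
      exact hz
  have a2 : Ev s₁ s₂ (k : Hh) ↔ ∀ m : ℕ, ¬ L (prN k m) = true := by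
    rw [hs k ((hInN _).2 ⟨k, rfl⟩)]
    constructor
    · intro H' m
      have := H' (m : Hh) ((hInN _).2 ⟨m, rfl⟩)
      rwa [pr_cast, hLim] at this
    · intro H' m hm'
      obtain ⟨m, rfl⟩ := (hInN m).1 hm'
      rw [pr_cast, hLim]
      exact H' m
  by_cases hE : Ev s₁ s₂ (k : Hh)
  · obtain ⟨m, hm'⟩ := a1.1 hE
    exact a2.1 hE m hm'
  · exact hE (a2.2 fun m hm' => hE (a1.2 ⟨m, hm'⟩))

end Pool.FDA
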