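import Pool.Agent.H3.FDA.HUL
import Pool.Agent.H49.FDA.CJ
import Pool.Agent.H52.FDA.Cor
import Pool.Agent.H52.FDA.Lsk
import Pool.Agent.H52.FDA.Prs
import Pool.Agent.H52.FDA.Seq
import Pool.Agent.H52.FDA.Uni
import Pool.Agent.H59.FDA.Coi
import Pool.Agent.H59.FDA.Dga
import Pool.Agent.H59.FDA.Nis
import Pool.Agent.H59.FDA.Xif
import Pool.Agent.H70.FDA.CRT
import Pool.Agent.H70.FDA.LOS
import Pool.Agent.H70.FDA.PI2
import Pool.Agent.H70.FDA.TRI
import Pool.Agent.H86.FDA.FIX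
import Pool.Agent.H86.FDA.REP
import Pool.Agent.H86.FDA.INI
import Pool.Agent.H86.FDA.PAA
import Pool.Agent.H86.FDA.BUP
import Pool.Agent.H86.FDA.XJ1
import Pool.Agent.H86.FDA.COD
import Pool.Agent.H86.FDA.SPM
import Pool.Agent.H86.FDA.LNP
import Pool.Agent.H86.FDA.MAIN
import Pool.Agent.H86.FDA.XJ2

/-!
Assembly of board `fda` (problem MP_fda27f_lc): no completion of `IΔ₀` is axiomatized by
`Σ₂`-sentences; no completion of `IΔ₀ + BΣ₁ + ¬IΣ₁` is axiomatized by `Σ₃`-sentences.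
-/

namespace Pool.FDA

theorem a_lnp : LNPStmt := t_lnp t_coi
theorem a_hul : HULStmt := t_hul t_coi a_lnp
theorem a_lsk : LSKStmt := t_lsk t_coi
theorem a_uni : UNIStmt := t_uni t_coi
theorem a_trs : TRSStmt := t_trs t_coi a_uni
theorem a_cdt : CDTStmt := t_cdt t_coi
theorem a_pi2 : PI2Stmt := t_pi2 t_coi t_ini
theorem a_tri : TRIStmt := t_tri t_coi t_ini a_lnp
theorem a_cod : CODStmt := t_cod t_paa
theorem a_rep : REPStmt := t_rep t_fix t_seq t_crt t_los t_ini t_paa a_lnp t_coi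
theorem a_xj2 : XJ2Stmt := t_xj2 a_hul a_rep t_dga t_coi t_los t_ini a_trs a_tri
theorem a_cj : CJStmt := t_cj t_los a_trs a_tri t_crt t_paa
theorem a_cor : CORStmt :=
  t_cor t_nis t_los a_lsk a_trs a_cdt t_bup a_pi2 t_prs t_xif a_cod t_xj1 a_xj2

/-- The two theorems of board `fda`. -/
theorem fda_main : MAINStmt := t_main a_cor a_cj t_spm

end Pool.FDA
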