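import Mathlib

/-!
Syntax and semantics of first-order arithmetic in the language `{0, 1, +, ·, <}`
(board `fda`, problem MP_fda27f_lc).
-/

namespace Pool.FDA

/-- Terms of the language `{0, 1, +, ·, <}`; variables are numbered by `ℕ`. -/
inductive Tm : Type
  | var (n : ℕ) : Tm
  | zero : Tm
  | one : Tm
  | add (s t : Tm) : Tm
  | mul (s t : Tm) : Tm

/-- First-order formulas in the language `{0, 1, +, ·, <}`. -/
inductive Fm : Type
  | eq (s t : Tm) : Fm
  | lt (s t : Tm) : Fm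
  | neg (φ : Fm) : Fm
  | and (φ ψ : Fm) : Fm
  | ex (n : ℕ) (φ : Fm) : Fm

/-- Models of `PA⁻`: the nonnegative parts of discretely ordered commutative rings. -/
class PAM (K : Type) extends CommSemiring K, LinearOrder K, IsStrictOrderedRing K where
  zero_le' : ∀ x : K, 0 ≤ x
  sub' : ∀ x y : K, x ≤ y → ∃ z, x + z = y
  disc' : ∀ x : K, 0 < x → 1 ≤ x

/-- Value of a term. -/
def Tm.val {K : Type} [PAM K] (e : ℕ → K) : Tm → K
  | .var n => e n
  | .zero => 0
  | .one => 1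
  | .add s t => s.val e + t.val e
  | .mul s t => s.val e * t.val e

/-- Tarski's truth definition: `Sat e φ` says that `φ` holds in `K` under the assignment `e`. -/
def Sat {K : Type} [PAM K] : (ℕ → K) → Fm → Prop
  | e, .eq s t => s.val e = t.val e
  | e, .lt s t => s.val e < t.val e
  | e, .neg φ => ¬ Sat e φ
  | e, .and φ ψ => Sat e φ ∧ Sat e ψ
  | e, .ex n φ => ∃ x : K, Sat (Function.update e n x) φ

/-- The variables of a term. -/
def Tm.vars : Tm → Finset ℕ
  | .var n => {n}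
  | .zero => ∅
  | .one => ∅
  | .add s t => s.vars ∪ t.vars
  | .mul s t => s.vars ∪ t.vars

/-- The free variables of a formula. -/
def Fm.fv : Fm → Finset ℕ
  | .eq s t => s.vars ∪ t.vars
  | .lt s t => s.vars ∪ t.vars
  | .neg φ => φ.fv
  | .and φ ψ => φ.fv ∪ ψ.fv
  | .ex n φ => φ.fv.erase n

/-- The universal quantifier. -/
def Fm.all (n : ℕ) (φ : Fm) : Fm := .neg (.ex n (.neg φ))

/-- `Δ₀`-formulas: all quantifiers are bounded, `∃ x < t` with `x` not in `t`. -/
inductive D0 : Fm → Prop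
  | eq (s t : Tm) : D0 (.eq s t)
  | lt (s t : Tm) : D0 (.lt s t)
  | neg {φ : Fm} : D0 φ → D0 (.neg φ)
  | and {φ ψ : Fm} : D0 φ → D0 ψ → D0 (.and φ ψ)
  | bex (n : ℕ) (t : Tm) {φ : Fm} : n ∉ t.vars → D0 φ → D0 (.ex n (.and (.lt (.var n) t) φ))

/-- The arithmetical hierarchy: `SP true n` is `Σ_n`, `SP false n` is `Π_n`. -/
inductive SP : Bool → ℕ → Fm → Prop
  | base (b : Bool) {φ : Fm} : D0 φ → SP b 0 φ
  | up (b : Bool) {n : ℕ} {φ : Fm} : SP (!b) n φ → SP b (n + 1) φ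
  | ex {n : ℕ} (x : ℕ) {φ : Fm} : SP true (n + 1) φ → SP true (n + 1) (.ex x φ)
  | all {n : ℕ} (x : ℕ) {φ : Fm} : SP false (n + 1) φ → SP false (n + 1) (.all x φ)

/-- `Σ_n`-formulas. -/
def Sg (n : ℕ) (φ : Fm) : Prop := SP true n φ

/-- Sentences: formulas without free variables. -/
def Closed (φ : Fm) : Prop := φ.fv = ∅

/-- Truth of a sentence in a model. -/
def Mod (K : Type) [PAM K] (φ : Fm) : Prop := Sat (fun _ => (0 : K)) φ

/-- `IΔ₀` (over `PA⁻`): induction for `Δ₀`-formulas with parameters. -/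
def IDelta0 (K : Type) [PAM K] : Prop :=
  ∀ φ : Fm, D0 φ → ∀ (x : ℕ) (e : ℕ → K), Sat (Function.update e x 0) φ →
    (∀ u : K, Sat (Function.update e x u) φ → Sat (Function.update e x (u + 1)) φ) →
    ∀ u : K, Sat (Function.update e x u) φ

/-- `IΣ₁` (over `PA⁻`): induction for `Σ₁`-formulas with parameters. -/
def ISigma1 (K : Type) [PAM K] : Prop :=
  ∀ φ : Fm, Sg 1 φ → ∀ (x : ℕ) (e : ℕ → K), Sat (Function.update e x 0) φ →
    (∀ u : K, Sat (Function.update e x u) φ → Sat (Function.update e x (u + 1)) φ) →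
    ∀ u : K, Sat (Function.update e x u) φ

/-- The collection scheme `BΣ₁`. -/
def BSigma1 (K : Type) [PAM K] : Prop :=
  ∀ φ : Fm, Sg 1 φ → ∀ (x y : ℕ), x ≠ y → ∀ (e : ℕ → K) (a : K),
    (∀ u < a, ∃ v, Sat (Function.update (Function.update e x u) y v) φ) →
    ∃ b, ∀ u < a, ∃ v < b, Sat (Function.update (Function.update e x u) y v) φ

/-- The theory of `M` is axiomatized (over `PA⁻`) by a set of `Σ_n`-sentences. -/
def Restricted (n : ℕ) (M : Type) [PAM M] : Prop :=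
  ∃ A : Set Fm, (∀ σ ∈ A, Closed σ ∧ Sg n σ ∧ Mod M σ) ∧
    ∀ (K : Type) [PAM K], (∀ σ ∈ A, Mod K σ) → ∀ φ : Fm, Closed φ → Mod M φ → Mod K φ

end Pool.FDA
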