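import Pool.Agent.H86.FDA.S1

namespace Pool.FDA

open Function Classical

namespace Fix

theorem prN_le (n j : ℕ) : n ≤ prN n j := by unfold prN; omega

theorem prN_inj {n j n' j' : ℕ} (h : prN n j = prN n' j') : n = n' ∧ j = j' := by
  unfold prN at h
  have key : ∀ a b c d : ℕ, a + b < c + d → (a + b) * (a + b) + a < (c + d) * (c + d) + c := by
    intro a b c d hh
    nlinarith
  rcases lt_trichotomy (n + j) (n' + j') with h1 | h1 | h1
  · have := key n j n' j' h1; omega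
  · rw [h1] at h
    omega
  · have := key n' j' n j h1; omega

variable {S : Type} (C : ℕ → Bool → Set S) (Θ : ℕ → Set S)

/-- the greedy path -/
noncomputable def G (n : ℕ) (u : ℕ → Bool) : ℕ → Bool
  | j => decide (∃ t, (∀ i < n, t ∈ C i (u i)) ∧
      (∀ j' : ℕ, ∀ _ : j' < j, (t ∈ Θ j' ↔ G n u j' = true)) ∧ t ∈ Θ j)
termination_by j => j

theorem G_eq (n : ℕ) (u : ℕ → Bool) (j : ℕ) : G C Θ n u j = true ↔
    ∃ t, (∀ i < n, t ∈ C i (u i)) ∧
      (∀ j' < j, (t ∈ Θ j' ↔ G C Θ n u j' = true)) ∧ t ∈ Θ j := by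
  rw [G]; simp

theorem G_congr (n : ℕ) (u u' : ℕ → Bool) (h : ∀ i < n, u i = u' i) (j : ℕ) :
    G C Θ n u j = G C Θ n u' j := by
  induction j using Nat.strong_induction_on with
  | _ j ih =>
    rw [Bool.eq_iff_iff, G_eq, G_eq]
    constructor
    · rintro ⟨t, h1, h2, h3⟩
      exact ⟨t, fun i hi => h i hi ▸ h1 i hi, fun j' hj' => ih j' hj' ▸ h2 j' hj', h3⟩
    · rintro ⟨t, h1, h2, h3⟩
      exact ⟨t, fun i hi => (h i hi).symm ▸ h1 i hi, fun j' hj' => (ih j' hj').symm ▸ h2 j' hj', h3⟩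

theorem inv (hC : ∀ (n : ℕ) (u : ℕ → Bool), ∃ t, ∀ i < n, t ∈ C i (u i)) (n : ℕ) (u : ℕ → Bool)
    (m : ℕ) : ∃ t, (∀ i < n, t ∈ C i (u i)) ∧ ∀ j < m, (t ∈ Θ j ↔ G C Θ n u j = true) := by
  induction m with
  | zero =>
    obtain ⟨t, ht⟩ := hC n u
    exact ⟨t, ht, fun j hj => absurd hj (Nat.not_lt_zero j)⟩
  | succ m ih =>
    by_cases hG : G C Θ n u m = true
    · obtain ⟨t, h1, h2, h3⟩ := (G_eq C Θ n u m).1 hG
      refine ⟨t, h1, fun j hj => ?_⟩
      rcases Nat.lt_succ_iff_lt_or_eq.1 hj with hj | rfl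
      · exact h2 j hj
      · exact ⟨fun _ => hG, fun _ => h3⟩
    · obtain ⟨t, h1, h2⟩ := ih
      refine ⟨t, h1, fun j hj => ?_⟩
      rcases Nat.lt_succ_iff_lt_or_eq.1 hj with hj | rfl
      · exact h2 j hj
      · exact ⟨fun h => absurd ((G_eq C Θ n u j).2 ⟨t, h1, h2, h⟩) hG, fun h => absurd h hG⟩

/-- the oracle -/
noncomputable def X : ℕ → Bool
  | i => if h : ∃ q : ℕ × ℕ, prN q.1 q.2 = i then
      G C Θ h.choose.1 (fun k => if _ : k < h.choose.1 then X k else false) h.choose.2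
    else false
termination_by i => i
decreasing_by
  have h1 := h.choose_spec
  have h2 := prN_le h.choose.1 h.choose.2
  omega

theorem X_eq (n j : ℕ) : X C Θ (prN n j) = G C Θ n (X C Θ) j := by
  rw [X]
  have h : ∃ q : ℕ × ℕ, prN q.1 q.2 = prN n j := ⟨(n, j), rfl⟩
  rw [dif_pos h]
  obtain ⟨h1, h2⟩ := prN_inj h.choose_spec
  have key : ∀ a b : ℕ, a = n → b = j →
      G C Θ a (fun k => if _ : k < a then X C Θ k else false) b = G C Θ n (X C Θ) j := by
    intro a b ha hb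
    subst ha hb
    apply G_congr
    intro i hi
    simp [hi]
  exact key _ _ h1 h2

theorem lim (j : ℕ) : ∃ b : Bool, ∃ n₀, ∀ n ≥ n₀, G C Θ n (X C Θ) j = b := by
  induction j using Nat.strong_induction_on with
  | _ j ih =>
    choose! L n₀ hL using ih
    set N := (Finset.range j).sup n₀ with hN
    have hst : ∀ n ≥ N, ∀ j' < j, G C Θ n (X C Θ) j' = L j' := by
      intro n hn j' hj'
      exact hL j' hj' n (le_trans (Finset.le_sup (Finset.mem_range.2 hj')) hn)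
    by_cases hq : ∀ n, ∃ t, (∀ i < n, t ∈ C i (X C Θ i)) ∧
        (∀ j' < j, (t ∈ Θ j' ↔ L j' = true)) ∧ t ∈ Θ j
    · refine ⟨true, N, fun n hn => ?_⟩
      rw [G_eq]
      obtain ⟨t, h1, h2, h3⟩ := hq n
      exact ⟨t, h1, fun j' hj' => by rw [hst n hn j' hj']; exact h2 j' hj', h3⟩
    · push_neg at hq
      obtain ⟨n₁, hn₁⟩ := hq
      refine ⟨false, max N n₁, fun n hn => ?_⟩
      rw [Bool.eq_false_iff]
      intro hG
      obtain ⟨t, h1, h2, h3⟩ := (G_eq C Θ n (X C Θ) j).1 hG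
      refine hn₁ t (fun i hi => h1 i (lt_of_lt_of_le hi (le_trans (le_max_right _ _) hn))) ?_ h3
      intro j' hj'
      rw [← hst n (le_trans (le_max_left _ _) hn) j' hj']
      exact h2 j' hj'

end Fix

theorem t_fix : FIXStmt := by
  intro S C Θ hC
  choose L n₀ hL using Fix.lim C Θ
  have hP : ∀ n m, ∃ t, (∀ i < n, t ∈ C i (Fix.X C Θ i)) ∧ ∀ j < m, (t ∈ Θ j ↔ L j = true) := by
    intro n m
    set N := max n ((Finset.range m).sup n₀) with hN
    obtain ⟨t, h1, h2⟩ := Fix.inv C Θ hC N (Fix.X C Θ) m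
    refine ⟨t, fun i hi => h1 i (lt_of_lt_of_le hi (le_max_left _ _)), fun j hj => ?_⟩
    rw [← hL j N (le_trans (Finset.le_sup (Finset.mem_range.2 hj)) (le_max_right _ _))]
    exact h2 j hj
  choose t ht using hP
  refine ⟨Fix.X C Θ, L, fun n => t n n, fun n => (ht n n).1, fun n => (ht n n).2, fun j => ?_⟩
  exact ⟨n₀ j, fun n hn => by rw [Fix.X_eq]; exact hL j n hn⟩

end Pool.FDA
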