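import Pool.Agent.H86.FDA.Defs

/-!
Typed statements of the board `fda` (problem MP_fda27f_lc).
-/

namespace Pool.FDA

open Function Filter

/-! ### absoluteness along maps -/

/-- `ι` preserves and reflects `Δ₀`-formulas. -/
def Abs0 {K K' : Type} [PAM K] [PAM K'] (ι : K → K') : Prop :=
  ∀ φ : Fm, D0 φ → ∀ e : ℕ → K, (Sat e φ ↔ Sat (fun n => ι (e n)) φ)

/-- `ι` preserves and reflects `Σ₁`-formulas. -/
def Abs1 {K K' : Type} [PAM K] [PAM K'] (ι : K → K') : Prop :=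
  ∀ φ : Fm, Sg 1 φ → ∀ e : ℕ → K, (Sat e φ ↔ Sat (fun n => ι (e n)) φ)

/-- `ι` is an elementary embedding. -/
def AbsAll {K K' : Type} [PAM K] [PAM K'] (ι : K → K') : Prop :=
  ∀ φ : Fm, ∀ e : ℕ → K, (Sat e φ ↔ Sat (fun n => ι (e n)) φ)

/-- `ι` maps `K` onto an initial segment of `K'`. -/
def Ini {K K' : Type} [PAM K] [PAM K'] (ι : K → K') : Prop :=
  ∀ (x : K) (y : K'), y < ι x → ∃ z, ι z = y

/-- `Δ₀`-collection. -/
def Coll0 (K : Type) [PAM K] : Prop :=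
  ∀ φ : Fm, D0 φ → ∀ (x y : ℕ), x ≠ y → ∀ (e : ℕ → K) (a : K),
    (∀ u < a, ∃ v, Sat (update (update e x u) y v) φ) →
    ∃ b, ∀ u < a, ∃ v < b, Sat (update (update e x u) y v) φ

/-! ### the ultrapower -/

/-- The ultrapower over `ℕ`. -/
abbrev UP (K : Type) : Type := Germ (hyperfilter ℕ : Filter ℕ) K

/-- constants -/
noncomputable def cst {K : Type} (a : K) : UP K := ((a : K) : UP K)

noncomputable instance instPAMUP (K : Type) [PAM K] : PAM (UP K) where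
  zero_le' x := by
    induction x using Germ.inductionOn with
    | _ f =>
      change ((fun _ => (0 : K) : ℕ → K) : UP K) ≤ (f : UP K)
      rw [Germ.coe_le]
      exact Eventually.of_forall fun i => PAM.zero_le' (f i)
  sub' x y := by
    induction x using Germ.inductionOn with
    | _ f =>
      induction y using Germ.inductionOn with
      | _ g =>
        intro h
        rw [Germ.coe_le] at h
        classical
        refine ⟨((fun i => if hi : f i ≤ g i then Classical.choose (PAM.sub' _ _ hi) else 0 :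
          ℕ → K) : UP K), ?_⟩
        rw [← Germ.coe_add, Germ.coe_eq]
        filter_upwards [h] with i hi
        simp only [Pi.add_apply, dif_pos hi]
        exact Classical.choose_spec (PAM.sub' _ _ hi)
  disc' x := by
    induction x using Germ.inductionOn with
    | _ f =>
      intro h
      change ((fun _ => (0 : K) : ℕ → K) : UP K) < (f : UP K) at h
      rw [Germ.coe_lt] at h
      change ((fun _ => (1 : K) : ℕ → K) : UP K) ≤ (f : UP K)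
      rw [Germ.coe_le]
      filter_upwards [h] with i hi
      exact PAM.disc' _ hi

/-! ### arithmetic notions -/

/-- `v` is the remainder of `b₁` modulo `1 + (i+1) b₂` (Gödel's β-function). -/
def Beta {K : Type} [PAM K] (b₁ b₂ i v : K) : Prop :=
  v < 1 + (i + 1) * b₂ ∧ ∃ q, b₁ = q * (1 + (i + 1) * b₂) + v

/-- the `i`-th value of the sequence coded by `b₁, b₂` is even -/
def Ev {K : Type} [PAM K] (b₁ b₂ i : K) : Prop := ∃ w, Beta b₁ b₂ i (w + w)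

/-- a pairing function -/
def pr {K : Type} [PAM K] (a b : K) : K := (a + b) * (a + b) + a

/-- the same pairing function on `ℕ` -/
def prN (a b : ℕ) : ℕ := (a + b) * (a + b) + a

/-- The cut of all `v` such that `∃ y ε(x', y, p)` has bounded witnesses for all `x' ≤ v`. -/
def InL {K : Type} [PAM K] (ε : Fm) (x y : ℕ) (p : ℕ → K) (v : K) : Prop :=
  ∃ z, ∀ x' ≤ v, ∃ y' ≤ z, Sat (update (update p x x') y y') ε

/-- The set of all `i ≤ d` such that the `i`-th value of the coded sequence is in the cut. -/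
def InN {K : Type} [PAM K] (ε : Fm) (x y : ℕ) (p : ℕ → K) (b₁ b₂ d i : K) : Prop :=
  i ≤ d ∧ ∃ v, Beta b₁ b₂ i v ∧ InL ε x y p v

/-- The parameters define a set which contains `0` and is closed under successor. -/
def Good {K : Type} [PAM K] (ε : Fm) (x y : ℕ) (p : ℕ → K) (b₁ b₂ d : K) : Prop :=
  InN ε x y p b₁ b₂ d 0 ∧ ∀ i, InN ε x y p b₁ b₂ d i → InN ε x y p b₁ b₂ d (i + 1)

/-- ... and it is contained in every other such set. -/
def Mini {K : Type} [PAM K] (ε : Fm) (x y : ℕ) (p : ℕ → K) (b₁ b₂ d : K) : Prop :=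
  ∀ i, InN ε x y p b₁ b₂ d i →
    ∀ (p' : ℕ → K) (b₁' b₂' d' : K), Good ε x y p' b₁' b₂' d' → InN ε x y p' b₁' b₂' d' i

/-- The limit of the recursive approximations is `1`. -/
def Lim {K : Type} [PAM K] (ε : Fm) (x y : ℕ) (p : ℕ → K) (b₁ b₂ d j : K) : Prop :=
  ∃ n₀, InN ε x y p b₁ b₂ d n₀ ∧
    ∀ n, InN ε x y p b₁ b₂ d n → n₀ ≤ n → Ev b₁ b₂ (pr n j)

/-- The sentence which distinguishes the two models: the diagonal set is coded. -/
def Xi (K : Type) [PAM K] (ε : Fm) (x y : ℕ) : Prop :=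
  ∀ (p : ℕ → K) (b₁ b₂ d : K), Good ε x y p b₁ b₂ d → Mini ε x y p b₁ b₂ d →
    ∃ s₁ s₂, ∀ k, InN ε x y p b₁ b₂ d k →
      (Ev s₁ s₂ k ↔ ∀ m, InN ε x y p b₁ b₂ d m → ¬ Lim ε x y p b₁ b₂ d (pr k m))

/-- A definable cut below `e₀`: a failure of `Σ₁`-induction. -/
structure CD (K : Type) [PAM K] (ε : Fm) (x y : ℕ) (p : ℕ → K) (e₀ : K) : Prop where
  zero : ∃ v, Sat (update (update p x 0) y v) ε
  succ : ∀ u, (∃ v, Sat (update (update p x u) y v) ε) →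
    ∃ v, Sat (update (update p x (u + 1)) y v) ε
  top : ∀ v, ¬ Sat (update (update p x e₀) y v) ε

/-! ### statements: logic -/

/-- Coincidence lemma. -/
def COIStmt : Prop := ∀ (K : Type) [PAM K] (φ : Fm) (e e' : ℕ → K),
  (∀ n ∈ φ.fv, e n = e' n) → (Sat e φ ↔ Sat e' φ)

/-- Initial segments are `Δ₀`-absolute. -/
def INIStmt : Prop := ∀ (K K' : Type) [PAM K] [PAM K'] (ι : K →+* K'),
  StrictMono ι → Ini ι → Abs0 ι

/-- Łoś's theorem. -/
def LOSStmt : Prop := ∀ (K : Type) [PAM K] (φ : Fm) (E : ℕ → ℕ → K),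
  Sat (fun n => ((fun i => E i n : ℕ → K) : UP K)) φ ↔
    ∀ᶠ i in (hyperfilter ℕ : Filter ℕ), Sat (E i) φ

/-- Löwenheim-Skolem. -/
def LSKStmt : Prop := ∀ (K : Type) [PAM K] (s : Set K), s.Countable →
  ∃ (J : Type) (_ : PAM J) (ι : J →+* K), Countable J ∧ StrictMono ι ∧ AbsAll ι ∧
    s ⊆ Set.range ι

/-- Least number principle for `Δ₀`-formulas. -/
def LNPStmt : Prop := ∀ (K : Type) [PAM K], IDelta0 K → ∀ φ : Fm, D0 φ →
  ∀ (x : ℕ) (e : ℕ → K), (∃ u, Sat (update e x u) φ) →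
    ∃ u, Sat (update e x u) φ ∧ ∀ v < u, ¬ Sat (update e x v) φ

/-- Validity of a formula under all assignments transfers along elementary embeddings. -/
def UNIStmt : Prop := ∀ (K K' : Type) [PAM K] [PAM K'] (ι : K → K'), AbsAll ι →
  ∀ ψ : Fm, (∀ e : ℕ → K, Sat e ψ) ↔ (∀ e' : ℕ → K', Sat e' ψ)

/-- The schemes transfer along elementary embeddings. -/
def TRSStmt : Prop := ∀ (K K' : Type) [PAM K] [PAM K'] (ι : K →+* K'), StrictMono ι →
  AbsAll ι → (IDelta0 K ↔ IDelta0 K') ∧ (Coll0 K ↔ Coll0 K')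

/-- Initial segments of models of `IΔ₀`; proper ones satisfy collection. -/
def TRIStmt : Prop := ∀ (K K' : Type) [PAM K] [PAM K'] (ι : K →+* K'), StrictMono ι →
  Ini ι → IDelta0 K' → IDelta0 K ∧ ((∃ y : K', ∀ x : K, ι x ≤ y) → Coll0 K)

/-- Failure of `IΣ₁` gives a definable cut with a single `Δ₀`-matrix. -/
def NISStmt : Prop := ∀ (K : Type) [PAM K], ¬ ISigma1 K →
  ∃ (ε : Fm) (x y : ℕ), D0 ε ∧ x ≠ y ∧ ∃ (p : ℕ → K) (e₀ : K), CD K ε x y p e₀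

/-- Definable cuts transfer along elementary embeddings. -/
def CDTStmt : Prop := ∀ (K K' : Type) [PAM K] [PAM K'] (ι : K →+* K'), AbsAll ι →
  ∀ (ε : Fm) (x y : ℕ), x ≠ y → ∀ (p : ℕ → K) (e₀ : K),
    (CD K ε x y p e₀ ↔ CD K' ε x y (fun n => ι (p n)) (ι e₀))

/-- `Σ₂ ⊆ Σ₃`. -/
def SPMStmt : Prop := ∀ φ : Fm, Sg 2 φ → Sg 3 φ

/-- `Π₂`-formulas go down, `Σ₃`-sentences have witnesses. -/
def PRSStmt : Prop :=
  (∀ (K K' : Type) [PAM K] [PAM K'] (ι : K → K'), Abs1 ι →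
    ∀ φ : Fm, SP false 2 φ → ∀ e : ℕ → K, Sat (fun n => ι (e n)) φ → Sat e φ) ∧
  (∀ (K J' : Type) [PAM K] [PAM J'] (ι : K → J') (_ : ∀ φ : Fm, SP false 2 φ →
      ∀ e : ℕ → K, Sat e φ → Sat (fun n => ι (e n)) φ),
    ∀ φ : Fm, Sg 3 φ → ∀ e : ℕ → K, Sat e φ → Sat (fun n => ι (e n)) φ) ∧
  (∀ (K J' H : Type) [PAM K] [PAM J'] [PAM H] (i : K → J') (g : K → H) (h : H → J'),
    (∀ a, h (g a) = i a) → Abs1 h →
    (∀ φ : Fm, SP false 2 φ → ∀ e : ℕ → K, Sat e φ → Sat (fun n => i (e n)) φ) →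
    ∀ φ : Fm, Sg 3 φ → ∀ e : ℕ → K, Sat e φ → Sat (fun n => g (e n)) φ)

/-- Existence of the distinguishing sentence. -/
def XIFStmt : Prop := ∀ (ε : Fm) (x y : ℕ), D0 ε → x ≠ y →
  ∃ ξ : Fm, Closed ξ ∧ ∀ (K : Type) [PAM K], Mod K ξ ↔ Xi K ε x y

/-! ### statements: arithmetic and combinatorics -/

/-- Coding of sequences of standard length by the β-function. -/
def CRTStmt : Prop := ∀ n : ℕ, ∃ N : ℕ, ∀ (K : Type) [PAM K], IDelta0 K →
  ∀ (c : K) (a : ℕ → K), (∀ i < n, a i ≤ c) →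
    ∃ b₁ b₂ : K, b₁ ≤ (c + 2) ^ N ∧ b₂ ≤ (c + 2) ^ N ∧ ∀ i < n, Beta b₁ b₂ (i : K) (a i)

/-- The fixed point lemma. -/
def FIXStmt : Prop := ∀ (S : Type) (C : ℕ → Bool → Set S) (Θ : ℕ → Set S),
  (∀ (n : ℕ) (u : ℕ → Bool), ∃ t, ∀ i < n, t ∈ C i (u i)) →
  ∃ (X L : ℕ → Bool) (t : ℕ → S), (∀ n, ∀ i < n, t n ∈ C i (X i)) ∧
    (∀ n, ∀ j < n, (t n ∈ Θ j ↔ L j = true)) ∧
    ∀ j, ∃ n₀, ∀ n ≥ n₀, X (prN n j) = L j

/-- Elements below a numeral, β is single valued, parity. -/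
def PAAStmt : Prop := ∀ (K : Type) [PAM K],
  (∀ (n : ℕ) (v : K), v ≤ n → ∃ m : ℕ, m ≤ n ∧ v = m) ∧
  (∀ b₁ b₂ i v v' : K, Beta b₁ b₂ i v → Beta b₁ b₂ i v' → v = v') ∧
  (∀ u w : K, u + u ≠ w + w + 1) ∧
  (∀ b₁ b₂ : ℕ, ∀ i v : ℕ, v = b₁ % (1 + (i + 1) * b₂) → Beta (b₁ : K) b₂ i v)

/-- A cofinal sequence in the cut, with prescribed parities. -/
def SEQStmt : Prop := ∀ (J : Type) [PAM J], Countable J → IDelta0 J →
  ∀ (ε : Fm) (x y : ℕ), D0 ε → x ≠ y → ∀ (p : ℕ → J) (e₀ : J), CD J ε x y p e₀ →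
  ∃ a : ℕ → Bool → J, (∀ i b, InL ε x y p (a i b)) ∧ (∀ i b, a i b ≤ e₀) ∧
    (∀ i b b', a i b < a (i + 1) b') ∧ (∀ v, InL ε x y p v → ∃ i, ∀ b, v ≤ a i b) ∧
    (∀ i, ∃ w, a i true = w + w) ∧ (∀ i, ∃ w, a i false = w + w + 1)

/-! ### statements: the two models -/

/-- `J'` is the convex hull of `J` in the ultrapower. -/
structure Hul (J J' : Type) [PAM J] [PAM J'] (i : J →+* J') (j : J' →+* UP J) : Prop where
  imono : StrictMono i
  jmono : StrictMono j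
  comm : ∀ a, j (i a) = cst a
  cof : ∀ y : J', ∃ c : J, y ≤ i c
  conv : ∀ (z : UP J) (c : J), z ≤ cst c → ∃ y, j y = z

/-- Existence of the convex hull. -/
def BUPStmt : Prop := ∀ (J : Type) [PAM J],
  ∃ (J' : Type) (_ : PAM J') (i : J →+* J') (j : J' →+* UP J), Hul J J' i j

/-- With collection, `Π₂`-formulas go up to the convex hull. -/
def PI2Stmt : Prop := ∀ (J J' : Type) [PAM J] [PAM J'] (i : J →+* J') (j : J' →+* UP J),
  Hul J J' i j → Coll0 J → ∀ φ : Fm, SP false 2 φ → ∀ e : ℕ → J, Sat e φ →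
    Sat (fun n => i (e n)) φ

/-- `s` is `Σ₁`-definable in `K` from parameters in `A` (variable `0`: value, variable `1`:
witness, the other variables: parameters). -/
def SDef (K : Type) [PAM K] (A : Set K) (s : K) : Prop :=
  ∃ φ : Fm, D0 φ ∧ ∃ e : ℕ → K, (∀ n, e n ∈ A) ∧
    ∀ v : K, (∃ z, Sat (update (update e 0 v) 1 z) φ) ↔ v = s

/-- The `Σ₁`-hull. -/
def HULStmt : Prop := ∀ (K : Type) [PAM K], IDelta0 K → ∀ A : Set K, 0 ∈ A →
  ∃ (H : Type) (_ : PAM H) (ι : H →+* K), StrictMono ι ∧ Abs0 ι ∧ Abs1 ι ∧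
    A ⊆ Set.range ι ∧ ∀ h : H, SDef K A (ι h)

/-- The representation lemma: parameters `b₁, b₂, d` in `J'` which define `ℕ` and whose
`Δ₀`-type over `J` is limit computable in the coded set `X`. -/
def REPStmt : Prop := ∀ (J J' : Type) [PAM J] [PAM J'] (i : J →+* J') (j : J' →+* UP J),
  Hul J J' i j → Countable J → IDelta0 J →
  ∀ (ε : Fm) (x y : ℕ), D0 ε → x ≠ y → ∀ (p : ℕ → J) (e₀ : J), CD J ε x y p e₀ →
  (∃ y₀ : J, ∀ k : ℕ, (e₀ + 2) ^ k ≤ y₀) →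
  ∀ (ψ : ℕ → Fm), (∀ k, D0 (ψ k)) → ∀ E : ℕ → ℕ → J,
  ∃ (X L : ℕ → Bool) (b₁ b₂ d : J'),
    (∀ v : J', InN ε x y (fun n => i (p n)) b₁ b₂ d v ↔ ∃ n : ℕ, v = n) ∧
    (∀ n : ℕ, Ev b₁ b₂ (n : J') ↔ X n = true) ∧
    (∀ k, Sat (update (update (update (fun n => i (E k n)) 2 b₁) 3 b₂) 4 d) (ψ k) ↔
      L k = true) ∧
    (∀ k, ∃ n₀, ∀ n ≥ n₀, X (prN n k) = L k)

/-- Every set of natural numbers is coded in the convex hull. -/
def CODStmt : Prop := ∀ (J J' : Type) [PAM J] [PAM J'] (i : J →+* J') (j : J' →+* UP J),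
  Hul J J' i j → (∃ y₀ : J, ∀ n : ℕ, (n : J) ≤ y₀) → ∀ Z : Set ℕ,
    ∃ s₁ s₂ : J', ∀ n : ℕ, Ev s₁ s₂ (n : J') ↔ n ∈ Z

/-- If `ℕ` is one of the sets `InN` and all sets are coded then `Xi` holds. -/
def XJ1Stmt : Prop := ∀ (K : Type) [PAM K] (ε : Fm) (x y : ℕ),
  (∃ (p : ℕ → K) (b₁ b₂ d : K), ∀ v : K, InN ε x y p b₁ b₂ d v ↔ ∃ n : ℕ, v = n) →
  (∀ Z : Set ℕ, ∃ s₁ s₂ : K, ∀ n : ℕ, Ev s₁ s₂ (n : K) ↔ n ∈ Z) → Xi K ε x y

/-- `k` is in the set coded by two `Σ₁`-definable elements: a `Σ₁`-condition on `k` with a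
`Δ₀`-matrix in the variables `0` (witness), `1` (`k`), `2, 3, 4` (`b₁, b₂, d`) and parameters
in `J` of finite support. -/
def DGAStmt : Prop := ∀ (J J' : Type) [PAM J] [PAM J'] (i : J →+* J') (b₁ b₂ d : J'),
  ∀ s₁ s₂ : J', SDef J' (Set.range i ∪ {b₁, b₂, d}) s₁ →
    SDef J' (Set.range i ∪ {b₁, b₂, d}) s₂ →
  ∃ φ : Fm, D0 φ ∧ ∃ E : ℕ → J, {n | E n ≠ 0}.Finite ∧ ∀ u : J',
    (Ev s₁ s₂ u ↔ ∃ z, Sat (update (update (update (update (update (fun n => i (E n))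
      0 z) 1 u) 2 b₁) 3 b₂) 4 d) φ)

/-- `Xi` fails in the `Σ₁`-hull of `J` and the parameters of the representation lemma. -/
def XJ2Stmt : Prop := ∀ (J J' : Type) [PAM J] [PAM J'] (i : J →+* J') (j : J' →+* UP J),
  Hul J J' i j → Countable J → IDelta0 J →
  ∀ (ε : Fm) (x y : ℕ), D0 ε → x ≠ y → ∀ (p : ℕ → J) (e₀ : J), CD J ε x y p e₀ →
  (∃ y₀ : J, ∀ k : ℕ, (e₀ + 2) ^ k ≤ y₀) →
  (∃ b₁ b₂ d : J', ∀ v : J',
    InN ε x y (fun n => i (p n)) b₁ b₂ d v ↔ ∃ n : ℕ, v = n) ∧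
  ∃ (H : Type) (_ : PAM H) (g : J →+* H) (h : H →+* J'), (∀ a, h (g a) = i a) ∧
    StrictMono h ∧ Abs0 h ∧ Abs1 h ∧ ¬ Xi H ε x y

/-- The core theorem. -/
def CORStmt : Prop := ∀ (M : Type) [PAM M], IDelta0 M → Coll0 M → ¬ ISigma1 M →
  ¬ Restricted 3 M

/-- The case `n = 2`: a cut generated by one element. -/
def CJStmt : Prop := ∀ (M : Type) [PAM M], IDelta0 M → Restricted 2 M →
  ∃ (K : Type) (_ : PAM K), IDelta0 K ∧ Coll0 K ∧ ¬ ISigma1 K ∧ Restricted 2 K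

/-- The main theorem. -/
def MAINStmt : Prop :=
  (∀ (M : Type) [PAM M], IDelta0 M → ¬ Restricted 2 M) ∧
  (∀ (M : Type) [PAM M], IDelta0 M → BSigma1 M → ¬ ISigma1 M → ¬ Restricted 3 M)

end Pool.FDA
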