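import Pool.Agent.H86.FDA.S1

/-! Tools: germs, β, transfer between `J`, `J'` and the ultrapower. -/

namespace Pool.FDA

open Function Filter

section PAMfacts

variable {K : Type} [PAM K]

theorem pam_zero_le (x : K) : 0 ≤ x := PAM.zero_le' x

theorem pam_succ_le {x y : K} (h : x < y) : x + 1 ≤ y := by
  obtain ⟨z, rfl⟩ := PAM.sub' x y h.le
  have hz : 0 < z := by
    rcases (pam_zero_le z).eq_or_lt with h0 | h0
    · rw [← h0] at h; simp at h
    · exact h0
  have := PAM.disc' z hz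
  gcongr

theorem pam_lt_succ {x y : K} (h : x < y + 1) : x ≤ y := by
  by_contra hc
  exact absurd (pam_succ_le (not_le.1 hc)) (not_le.2 h)

theorem pam_lt_add_one (x : K) : x < x + 1 := lt_add_one x

theorem pam_pred {x : K} (h : 0 < x) : ∃ y, x = y + 1 := by
  obtain ⟨z, hz⟩ := PAM.sub' 1 x (PAM.disc' x h)
  exact ⟨z, by rw [← hz, add_comm]⟩

theorem beta_le {b₁ b₂ i v : K} (h : Beta b₁ b₂ i v) : v ≤ b₁ := by
  obtain ⟨_, q, rfl⟩ := h
  exact le_add_of_nonneg_left (pam_zero_le _)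

theorem beta_q_le {b₁ b₂ i v q : K} (h : b₁ = q * (1 + (i + 1) * b₂) + v) : q ≤ b₁ := by
  have h1 : (1 : K) ≤ 1 + (i + 1) * b₂ := le_add_of_nonneg_right (pam_zero_le _)
  have h2 : q * 1 ≤ q * (1 + (i + 1) * b₂) := mul_le_mul_of_nonneg_left h1 (pam_zero_le q)
  rw [mul_one] at h2
  rw [h]
  exact h2.trans (le_add_of_nonneg_right (pam_zero_le _))

end PAMfacts

section Germs

variable {K : Type} [PAM K]

theorem germ_ex (z : UP K) : ∃ f : ℕ → K, (f : UP K) = z := by
  induction z using Germ.inductionOn with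
  | _ f => exact ⟨f, rfl⟩

theorem beta_germ (f g h k : ℕ → K) : Beta (f : UP K) (g : UP K) (h : UP K) (k : UP K) ↔
    ∀ᶠ n in (hyperfilter ℕ : Filter ℕ), Beta (f n) (g n) (h n) (k n) := by
  constructor
  · rintro ⟨h1, q, hq⟩
    obtain ⟨q, rfl⟩ := germ_ex q
    have h1' : ((k : ℕ → K) : UP K) < ((fun n => 1 + (h n + 1) * g n : ℕ → K) : UP K) := h1
    have hq' : (f : UP K) = ((fun n => q n * (1 + (h n + 1) * g n) + k n : ℕ → K) : UP K) := hq
    rw [Germ.coe_lt] at h1'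
    rw [Germ.coe_eq] at hq'
    filter_upwards [h1', hq'] with n a b
    exact ⟨a, q n, b⟩
  · intro H
    refine ⟨?_, ?_⟩
    · change ((k : ℕ → K) : UP K) < ((fun n => 1 + (h n + 1) * g n : ℕ → K) : UP K)
      rw [Germ.coe_lt]
      filter_upwards [H] with n hn using hn.1
    · classical
      refine ⟨((fun n => if hn : Beta (f n) (g n) (h n) (k n) then hn.2.choose else 0 :
        ℕ → K) : UP K), ?_⟩
      change (f : UP K) = ((fun n => (if hn : Beta (f n) (g n) (h n) (k n) then hn.2.choose else 0)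
        * (1 + (h n + 1) * g n) + k n : ℕ → K) : UP K)
      rw [Germ.coe_eq]
      filter_upwards [H] with n hn
      rw [dif_pos hn]
      exact hn.2.choose_spec

theorem ev_gt (k : ℕ) : ∀ᶠ n in (hyperfilter ℕ : Filter ℕ), k < n :=
  (eventually_gt_atTop k).filter_mono Nat.hyperfilter_le_atTop

theorem cst_nat (n : ℕ) : cst (n : K) = (n : UP K) := Germ.const_nat n

end Germs

section HulFacts

variable {J J' : Type} [PAM J] [PAM J'] {i : J →+* J'} {j : J' →+* UP J}

theorem Hul.ini (H : Hul J J' i j) : Ini j := by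
  intro x y hy
  obtain ⟨c, hc⟩ := H.cof x
  refine H.conv y c ?_
  rw [← H.comm]
  exact hy.le.trans (H.jmono.monotone hc)

theorem beta_map {K K' : Type} [PAM K] [PAM K'] (ι : K →+* K') (hι : StrictMono ι) (hI : Ini ι)
    (b₁ b₂ i v : K) : Beta (ι b₁) (ι b₂) (ι i) (ι v) ↔ Beta b₁ b₂ i v := by
  have e1 : (1 + (ι i + 1) * ι b₂ : K') = ι (1 + (i + 1) * b₂) := by simp
  constructor
  · rintro ⟨h1, q, hq⟩
    rw [e1, hι.lt_iff_lt] at h1
    have hq1 : q ≤ ι b₁ := beta_q_le hq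
    obtain ⟨q', rfl⟩ : ∃ q', ι q' = q := by
      rcases hq1.eq_or_lt with h | h
      · exact ⟨b₁, h.symm⟩
      · exact hI _ _ h
    rw [e1, ← map_mul, ← map_add] at hq
    exact ⟨h1, q', hι.injective hq⟩
  · rintro ⟨h1, q, hq⟩
    refine ⟨by rw [e1]; exact hι h1, ι q, ?_⟩
    rw [e1, ← map_mul, ← map_add, hq]

theorem up_elem (hL : LOSStmt) (K : Type) [PAM K] : AbsAll (cst : K → UP K) := by
  intro φ e
  have := hL K φ (fun _ => e)
  rw [eventually_const] at this
  exact this.symm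

theorem Hul.abs_j (hI : INIStmt) (H : Hul J J' i j) : Abs0 j := hI _ _ j H.jmono H.ini

theorem Hul.abs_i (hL : LOSStmt) (hI : INIStmt) (H : Hul J J' i j) : Abs0 i := by
  intro φ hφ e
  rw [up_elem hL J φ e, H.abs_j hI φ hφ (fun n => i (e n))]
  simp only [H.comm]

theorem comp_update {A B : Type} (f : A → B) (e : ℕ → A) (n : ℕ) (a : A) :
    (fun m => f (update e n a m)) = update (fun m => f (e m)) n (f a) := by
  funext m
  by_cases h : m = n
  · subst h; simp
  · simp [update_of_ne h]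

end HulFacts

/-! ### the bounded formula -/

/-- A bounded formula expressing `∀ x' ≤ V, ∃ y' ≤ Z, ε(x', y')`. -/
def bnd (ε : Fm) (x y V Z : ℕ) : Fm :=
  .neg (.ex x (.and (.lt (.var x) (.add (.var V) .one))
    (.neg (.ex y (.and (.lt (.var y) (.add (.var Z) .one)) ε)))))

theorem bnd_D0 {ε : Fm} (hε : D0 ε) {x y V Z : ℕ} (h1 : x ≠ V) (h2 : y ≠ Z) :
    D0 (bnd ε x y V Z) :=
  .neg (.bex x _ (by simp [Tm.vars, h1]) (.neg (.bex y _ (by simp [Tm.vars, h2]) hε)))

theorem bnd_sat (hC : COIStmt) {ε : Fm} {x y V Z : ℕ} (hxy : x ≠ y) (h1 : x ≠ V) (h2 : y ≠ Z)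
    (h3 : x ≠ Z) (h4 : y ≠ V) (hVZ : V ≠ Z) (hV : V ∉ ε.fv) (hZ : Z ∉ ε.fv) {K : Type} [PAM K]
    (p : ℕ → K) (v z : K) :
    Sat (update (update p V v) Z z) (bnd ε x y V Z) ↔
      ∀ x' ≤ v, ∃ y' ≤ z, Sat (update (update p x x') y y') ε := by
  simp only [bnd, Sat, Tm.val, not_exists, not_and, not_forall, not_not]
  refine forall_congr' fun x' => ?_
  have e1 : update (update (update p V v) Z z) x x' x = x' := by simp
  have e2 : update (update (update p V v) Z z) x x' V = v := by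
    rw [update_of_ne (Ne.symm h1), update_of_ne hVZ]; simp
  rw [e1, e2]
  have e3 : (x' < v + 1) ↔ x' ≤ v := ⟨pam_lt_succ, fun h => lt_of_le_of_lt h (pam_lt_add_one v)⟩
  rw [e3]
  refine imp_congr_right fun _ => exists_congr fun y' => ?_
  have e4 : update (update (update (update p V v) Z z) x x') y y' y = y' := by simp
  have e5 : update (update (update (update p V v) Z z) x x') y y' Z = z := by
    rw [update_of_ne (Ne.symm h2), update_of_ne (Ne.symm h3)]; simp
  have e6 : (y' < z + 1) ↔ y' ≤ z := ⟨pam_lt_succ, fun h => lt_of_le_of_lt h (pam_lt_add_one z)⟩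
  rw [e4, e5, e6, exists_prop]
  refine and_congr_right fun _ => hC K ε _ _ fun n hn => ?_
  have hnV : n ≠ V := fun h => hV (h ▸ hn)
  have hnZ : n ≠ Z := fun h => hZ (h ▸ hn)
  by_cases ny : n = y
  · subst ny; simp
  · rw [update_of_ne ny, update_of_ne ny]
    by_cases nx : n = x
    · subst nx; simp
    · rw [update_of_ne nx, update_of_ne nx, update_of_ne hnZ, update_of_ne hnV]

/-- fresh variables -/
theorem fresh2 (ε : Fm) (x y : ℕ) : ∃ V Z : ℕ, x ≠ V ∧ y ≠ Z ∧ x ≠ Z ∧ y ≠ V ∧ V ≠ Z ∧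
    V ∉ ε.fv ∧ Z ∉ ε.fv := by
  obtain ⟨V, hV⟩ := Infinite.exists_notMem_finset (ε.fv ∪ {x, y})
  obtain ⟨Z, hZ⟩ := Infinite.exists_notMem_finset (ε.fv ∪ {x, y, V})
  simp only [Finset.mem_union, Finset.mem_insert, Finset.mem_singleton, not_or] at hV hZ
  exact ⟨V, Z, Ne.symm hV.2.1, Ne.symm hZ.2.2.1, Ne.symm hZ.2.1, Ne.symm hV.2.2,
    Ne.symm hZ.2.2.2, hV.1, hZ.1⟩

end Pool.FDA
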