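import Pool.Agent.H86.FDA.Tools

/-! Formulas for β, parity and the sets `InN`; their absoluteness. -/

namespace Pool.FDA

open Function Filter

deriving instance Countable for Tm
deriving instance Countable for Fm

/-- the modulus `1 + (I+1) B₂` -/
def modT (B₂ I : ℕ) : Tm := .add .one (.mul (.add (.var I) .one) (.var B₂))

/-- β with names `B₁ B₂ I` and a term for the value, bound variable `Q` -/
def betaF (B₁ B₂ I Q : ℕ) (τ : Tm) : Fm :=
  .and (.lt τ (modT B₂ I))
    (.ex Q (.and (.lt (.var Q) (.add (.var B₁) .one))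
      (.eq (.var B₁) (.add (.mul (.var Q) (modT B₂ I)) τ))))

theorem betaF_D0 {B₁ B₂ I Q : ℕ} {τ : Tm} (h : Q ≠ B₁) : D0 (betaF B₁ B₂ I Q τ) :=
  .and (.lt _ _) (.bex Q _ (by simp [Tm.vars, h]) (.eq _ _))

theorem val_upd {K : Type} [PAM K] (e : ℕ → K) (n : ℕ) (a : K) (t : Tm)
    (h : n ∉ t.vars) : t.val (update e n a) = t.val e := by
  induction t with
  | var m =>
    simp only [Tm.vars, Finset.mem_singleton] at h
    simp [Tm.val, update_of_ne (Ne.symm h)]
  | zero => rfl
  | one => rfl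
  | add s t hs ht =>
    simp only [Tm.vars, Finset.mem_union, not_or] at h
    simp [Tm.val, hs h.1, ht h.2]
  | mul s t hs ht =>
    simp only [Tm.vars, Finset.mem_union, not_or] at h
    simp [Tm.val, hs h.1, ht h.2]

theorem betaF_sat {K : Type} [PAM K] {B₁ B₂ I Q : ℕ} {τ : Tm} (h1 : Q ≠ B₁) (h2 : Q ≠ B₂)
    (h3 : Q ≠ I) (h4 : Q ∉ τ.vars) (e : ℕ → K) :
    Sat e (betaF B₁ B₂ I Q τ) ↔ Beta (e B₁) (e B₂) (e I) (τ.val e) := by
  simp only [betaF, Sat, modT, Tm.val, Beta, update_self, update_of_ne h1.symm,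
    update_of_ne h2.symm, update_of_ne h3.symm, val_upd _ _ _ _ h4]
  refine and_congr_right fun _ => exists_congr fun q => ?_
  constructor
  · exact fun h => h.2
  · exact fun h => ⟨lt_of_le_of_lt (beta_q_le h) (pam_lt_add_one _), h⟩

/-- absoluteness of β -/
theorem beta_abs {K K' : Type} [PAM K] [PAM K'] {ι : K → K'} (h : Abs0 ι) (b₁ b₂ i v : K) :
    Beta b₁ b₂ i v ↔ Beta (ι b₁) (ι b₂) (ι i) (ι v) := by
  have key := h (betaF 0 1 2 4 (.var 3)) (betaF_D0 (by decide))
    (fun n => if n = 0 then b₁ else if n = 1 then b₂ else if n = 2 then i else v)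
  rw [betaF_sat (by decide) (by decide) (by decide) (by simp [Tm.vars]),
    betaF_sat (by decide) (by decide) (by decide) (by simp [Tm.vars])] at key
  simpa [Tm.val] using key

/-- parity -/
def evF (B₁ B₂ I Q W : ℕ) : Fm :=
  .ex W (.and (.lt (.var W) (.add (.var B₁) .one)) (betaF B₁ B₂ I Q (.add (.var W) (.var W))))

theorem evF_D0 {B₁ B₂ I Q W : ℕ} (h : Q ≠ B₁) (h' : W ≠ B₁) : D0 (evF B₁ B₂ I Q W) :=
  .bex W _ (by simp [Tm.vars, h']) (betaF_D0 h)

theorem evF_sat {K : Type} [PAM K] {B₁ B₂ I Q W : ℕ} (h1 : Q ≠ B₁) (h2 : Q ≠ B₂)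
    (h3 : Q ≠ I) (h4 : Q ≠ W) (h5 : W ≠ B₁) (h6 : W ≠ B₂) (h7 : W ≠ I) (e : ℕ → K) :
    Sat e (evF B₁ B₂ I Q W) ↔ Ev (e B₁) (e B₂) (e I) := by
  simp only [evF, Sat, Ev]
  refine exists_congr fun w => ?_
  rw [betaF_sat h1 h2 h3 (by simp [Tm.vars, h4])]
  simp only [Tm.val, update_self, update_of_ne h5.symm, update_of_ne h6.symm,
    update_of_ne h7.symm]
  constructor
  · exact fun h => h.2
  · intro h
    refine ⟨lt_of_le_of_lt ?_ (pam_lt_add_one _), h⟩
    exact (le_add_of_nonneg_right (pam_zero_le w)).trans (beta_le h)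

/-- absoluteness of parity -/
theorem ev_abs {K K' : Type} [PAM K] [PAM K'] {ι : K → K'} (h : Abs0 ι) (b₁ b₂ i : K) :
    Ev b₁ b₂ i ↔ Ev (ι b₁) (ι b₂) (ι i) := by
  have key := h (evF 0 1 2 4 3) (evF_D0 (by decide) (by decide))
    (fun n => if n = 0 then b₁ else if n = 1 then b₂ else i)
  rw [evF_sat (by decide) (by decide) (by decide) (by decide) (by decide) (by decide)
    (by decide), evF_sat (by decide) (by decide) (by decide) (by decide) (by decide) (by decide)
    (by decide)] at key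
  simpa using key

/-- The sets `InN` are absolute for `Σ₁`-elementary maps. -/
theorem inN_abs (hC : COIStmt) {K K' : Type} [PAM K] [PAM K'] {ι : K →+* K'}
    (hm : StrictMono ι) (h : Abs1 ι) {ε : Fm} (hε : D0 ε) {x y : ℕ} (hxy : x ≠ y) (p : ℕ → K)
    (b₁ b₂ d v : K) : InN ε x y p b₁ b₂ d v ↔
      InN ε x y (fun n => ι (p n)) (ι b₁) (ι b₂) (ι d) (ι v) := by
  obtain ⟨N, hN⟩ : ∃ N : ℕ, ∀ n ∈ ε.fv ∪ {x, y}, n < N :=
    ⟨(ε.fv ∪ {x, y}).sup id + 1, fun n hn => Nat.lt_succ_of_le (Finset.le_sup (f := id) hn)⟩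
  have hx : x < N := hN x (by simp)
  have hy : y < N := hN y (by simp)
  have hf : ∀ n ∈ ε.fv, n < N := fun n hn => hN n (by simp [hn])
  -- names
  let Φ : Fm := .ex N (.ex (N + 1) (.and (betaF (N + 2) (N + 3) (N + 4) (N + 5) (.var N))
    (bnd ε x y N (N + 1))))
  have hΦ : Sg 1 Φ := .ex _ (.ex _ (.up true (.base false
    (.and (betaF_D0 (by omega)) (bnd_D0 hε (by omega) (by omega))))))
  have hsat : ∀ {K : Type} [PAM K] (p : ℕ → K) (b₁ b₂ v : K),
      Sat (update (update (update p (N + 2) b₁) (N + 3) b₂) (N + 4) v) Φ ↔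
        ∃ w, Beta b₁ b₂ v w ∧ InL ε x y p w := by
    intro K _ p b₁ b₂ v
    simp only [Φ, Sat, InL]
    refine exists_congr fun w => ?_
    rw [← exists_and_left]
    refine exists_congr fun z => ?_
    rw [betaF_sat (by omega) (by omega) (by omega) (by simp [Tm.vars]),
      bnd_sat hC hxy (by omega) (by omega) (by omega) (by omega) (by omega)
        (fun hh => absurd (hf _ hh) (by omega)) (fun hh => absurd (hf _ hh) (by omega))]
    have e1 : ∀ m, m ≠ N → m ≠ N + 1 → update (update (update (update (update p (N + 2) b₁)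
      (N + 3) b₂) (N + 4) v) N w) (N + 1) z m =
        update (update (update p (N + 2) b₁) (N + 3) b₂) (N + 4) v m := by
      intro m h1 h2
      rw [update_of_ne h2, update_of_ne h1]
    rw [e1 (N + 2) (by omega) (by omega), e1 (N + 3) (by omega) (by omega),
      e1 (N + 4) (by omega) (by omega)]
    have e2 : update (update (update p (N + 2) b₁) (N + 3) b₂) (N + 4) v (N + 2) = b₁ := by
      rw [update_of_ne (by omega), update_of_ne (by omega), update_self]
    have e3 : update (update (update p (N + 2) b₁) (N + 3) b₂) (N + 4) v (N + 3) = b₂ := by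
      rw [update_of_ne (by omega), update_self]
    have e4 : (Tm.var N).val (update (update (update (update (update p (N + 2) b₁)
      (N + 3) b₂) (N + 4) v) N w) (N + 1) z) = w := by
      rw [Tm.val, update_of_ne (by omega), update_self]
    rw [e2, e3, e4, update_self]
    refine and_congr_right fun _ => forall_congr' fun x' => imp_congr_right fun _ =>
      exists_congr fun y' => and_congr_right fun _ => hC K ε _ _ fun n hn => ?_
    have hnN := hf n hn
    by_cases ny : n = y
    · subst ny; simp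
    · rw [update_of_ne ny, update_of_ne ny]
      by_cases nx : n = x
      · subst nx; simp
      · rw [update_of_ne nx, update_of_ne nx, update_of_ne (by omega), update_of_ne (by omega),
          update_of_ne (by omega)]
  unfold InN
  rw [hm.le_iff_le]
  refine and_congr_right fun _ => ?_
  rw [← hsat, ← hsat, h Φ hΦ, comp_update ι, comp_update ι, comp_update ι]

theorem pr_cast {K : Type} [PAM K] (a b : ℕ) : pr (a : K) (b : K) = ((prN a b : ℕ) : K) := by
  simp [pr, prN]

end Pool.FDA
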